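import Pool.Agent.H856.DV.Diag
import Pool.Agent.H425.Lead

set_option autoImplicit false
set_option linter.unusedSectionVars false
set_option linter.unusedVariables false

/-!
# The monomial basis of the box for polynomials with a diagonal leading form
-/

namespace Pool.Agent.H856.DV

open Pool.Agent.H425 MvPolynomial

section span

variable {ι : Type} [Fintype ι] [DecidableEq ι] {K : Type} [Field K]

theorem not_box {e : ℕ} {v : ι →₀ ℕ} (h : ∀ u : ι → Fin e, emb u ≠ v) : ∃ i, e ≤ v i := by
  by_contra hcon
  push Not at hcon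
  exact h (fun i => ⟨v i, hcon i⟩) (by ext i; rfl)

theorem span_box {e : ℕ} (g : ι → K) (hg : ∀ i, g i ≠ 0) (j : ℕ) (s : Finset (ι →₀ ℕ))
    (hs : ∀ v ∈ s, v.degree = j) (κ : (ι →₀ ℕ) → K) :
    ∃ (a : ι → MvPolynomial ι K) (c : (ι → Fin e) → K),
      (∀ i, e ≤ j → (a i).IsHomogeneous (j - e)) ∧ (∀ i, j < e → a i = 0) ∧
      ∑ v ∈ s, monomial v (κ v) = ∑ i, a i * monomial (Finsupp.single i e) (g i) +
        ∑ u with ∑ i, (u i : ℕ) = j, monomial (emb u) (c u) := by
  classical
  induction s using Finset.induction_on with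
  | empty =>
    refine ⟨fun _ => 0, fun _ => 0, fun i _ => isHomogeneous_zero _ _ _, fun _ _ => rfl, ?_⟩
    simp
  | insert v s hv ih =>
    obtain ⟨a, c, h1, h2, h3⟩ := ih (fun w hw => hs w (Finset.mem_insert_of_mem hw))
    have hvj := hs v (Finset.mem_insert_self v s)
    rw [Finset.sum_insert hv, h3]
    by_cases hbox : ∃ u : ι → Fin e, emb u = v
    · obtain ⟨u0, hu0⟩ := hbox
      refine ⟨a, fun u => c u + if u = u0 then κ v else 0, h1, h2, ?_⟩
      have hmem : u0 ∈ Finset.univ.filter (fun u : ι → Fin e => ∑ i, (u i : ℕ) = j) := by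
        rw [Finset.mem_filter]
        refine ⟨Finset.mem_univ _, ?_⟩
        rw [← hvj, ← hu0, Finsupp.degree_eq_sum]
        rfl
      simp only [map_add, Finset.sum_add_distrib]
      have h4 : ∑ u with ∑ i, (u i : ℕ) = j, monomial (emb u) (if u = u0 then κ v else 0) =
          (monomial v (κ v) : MvPolynomial ι K) := by
        rw [Finset.sum_eq_single u0]
        · rw [if_pos rfl, hu0]
        · intro u _ hne
          rw [if_neg hne, map_zero]
        · intro h
          exact absurd hmem h
      rw [h4]
      ring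
    · push Not at hbox
      obtain ⟨i0, hi0⟩ := not_box hbox
      have hej : e ≤ j := by
        rw [← hvj]
        exact hi0.trans (Finsupp.le_degree i0 v)
      have hle : Finsupp.single i0 e ≤ v := Finsupp.single_le_iff.2 hi0
      refine ⟨fun i => a i + if i = i0 then monomial (v - Finsupp.single i0 e)
        (κ v * (g i0)⁻¹) else 0, c, ?_, ?_, ?_⟩
      · intro i hij
        refine (h1 i hij).add ?_
        split_ifs
        · refine isHomogeneous_monomial _ ?_
          have h5 : (v - Finsupp.single i0 e).degree + e = j := by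
            rw [← hvj]
            conv_rhs => rw [← tsub_add_cancel_of_le hle]
            rw [map_add, Finsupp.degree_single]
          omega
        · exact isHomogeneous_zero _ _ _
      · intro i hij
        omega
      · simp only [add_mul, Finset.sum_add_distrib, ite_mul, zero_mul]
        rw [Finset.sum_ite_eq' Finset.univ i0, if_pos (Finset.mem_univ _), monomial_mul,
          tsub_add_cancel_of_le hle, mul_assoc, inv_mul_cancel₀ (hg i0), mul_one]
        ring

end span

namespace S0

variable {p d : ℕ} [hp : Fact p.Prime] {K R : Type} [Field K] [CommRing R] [IsDomain R]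
  (S : Setup p d K R) {ι : Type} [Fintype ι] [DecidableEq ι]

theorem map_pderiv [CharP K p] (hd : 2 ≤ d) (f : MvPolynomial ι K)
    (hf : f.totalDegree ≤ d)
    (hdiag : ∀ s : ι →₀ ℕ, s.degree = d → (∀ i, s ≠ Finsupp.single i d) → coeff s f = 0)
    (N : ℕ) (hN : 1 ≤ N) (t : ℕ) (i : ι) :
    MvPolynomial.map (S.rho N hN) (pderiv i (S.Hh N (Setup.su f) (S.tc f t))) =
      monomial (Finsupp.single i (d - 1)) ((coeff (Finsupp.single i d) f * d) ^ (p ^ t)) := by
  have hd1 : d - 1 + 1 = d := by omega
  rw [← pderiv_map, S.map_Hh N hN f (by omega) hf t, pderiv_map]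
  ext x
  rw [coeff_map, coeff_pderiv, coeff_homogeneousComponent, coeff_monomial]
  by_cases hx : Finsupp.single i (d - 1) = x
  · subst hx
    rw [if_pos rfl, ← Finsupp.single_add, hd1, Finsupp.degree_single, if_pos rfl,
      Finsupp.single_eq_same]
    have h1 : ((d - 1 : ℕ) : K) + 1 = ((d : ℕ) : K) := by
      rw [← Nat.cast_add_one, hd1]
    rw [h1, iterateFrobenius_def]
  · rw [if_neg hx]
    split_ifs with h
    · have h2 : coeff (x + Finsupp.single i 1) f = 0 := by
        refine hdiag _ h fun j hj => ?_
        by_cases hij : i = j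
        · subst hij
          apply hx
          have h1 : x + Finsupp.single i 1 = Finsupp.single i (d - 1) + Finsupp.single i 1 := by
            rw [hj, ← Finsupp.single_add, hd1]
          exact (add_right_cancel h1).symm
        · have h1 := DFunLike.congr_fun hj i
          rw [Finsupp.add_apply, Finsupp.single_eq_same, Finsupp.single_eq_of_ne hij] at h1
          omega
      rw [h2, zero_mul, map_zero]
    · rw [zero_mul, map_zero]

theorem BD_diag [CharP K p] (hp5 : 5 ≤ p) (hd : 2 ≤ d) (hdp : d < p) (f : MvPolynomial ι K)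
    (hf : f.totalDegree ≤ d)
    (hdiag : ∀ s : ι →₀ ℕ, s.degree = d → (∀ i, s ≠ Finsupp.single i d) → coeff s f = 0)
    (hne : ∀ i, coeff (Finsupp.single i d) f ≠ 0) (N : ℕ) (hN : 1 ≤ N) :
    S.BD N f (d - 1) emb := by
  have hd1 : d - 1 + 1 = d := by omega
  have hdK : (d : K) ≠ 0 := by
    intro h0
    have h2 := (CharP.cast_eq_zero_iff K p d).1 h0
    have := Nat.le_of_dvd (by omega) h2
    omega
  refine ⟨hN, hp5, by omega, by omega, hf, fun t => ⟨?_, ?_, ?_, ?_⟩⟩
  · rw [Setup.Hh]
    refine Submodule.sum_mem _ fun s hs => monomial_mem_VV ?_ _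
    have := Setup.su_degree f hf s hs
    omega
  · intro u
    rw [Finsupp.degree_eq_sum]
    rfl
  · intro i
    rw [map_pderiv S hd f hf hdiag N hN t i]
    exact isHomogeneous_monomial _ (Finsupp.degree_single _ _)
  · intro j P hP
    obtain ⟨a, c, h1, h2, h3⟩ := span_box (e := d - 1)
      (fun i => (coeff (Finsupp.single i d) f * d) ^ (p ^ t))
      (fun i => pow_ne_zero _ (mul_ne_zero (hne i) hdK)) j P.support (by
        intro v hv
        by_contra hcon
        exact (mem_support_iff.1 hv) (hP.coeff_eq_zero hcon)) (fun v => coeff v P)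
    refine ⟨a, c, h1, h2, ?_⟩
    rw [← P.as_sum] at h3
    rw [h3]
    congr 1
    exact Finset.sum_congr rfl fun i _ => by rw [map_pderiv S hd f hf hdiag N hN t i]

end S0

end Pool.Agent.H856.DV
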