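import Pool.Agent.H856.DV.Spec

set_option autoImplicit false
set_option linter.unusedSectionVars false
set_option linter.unusedVariables false

/-!
# The adapted basis for polynomials with a diagonal leading form
-/

namespace Pool.Agent.H856.DV

open Pool.Agent.H425 MvPolynomial

section LT

variable {ι : Type} [Fintype ι] [DecidableEq ι] {L : Type} [CommRing L]

/-- `c x ^ w` is the only term of `P` of degree at least the degree of `w` -/
def LT (w : ι →₀ ℕ) (c : L) (P : MvPolynomial ι L) : Prop :=
  ∀ v : ι →₀ ℕ, w.degree ≤ v.degree → coeff v P = if v = w then c else 0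

theorem LT_monomial (w : ι →₀ ℕ) (c : L) : LT w c (monomial w c) := by
  intro v _
  rw [coeff_monomial]
  simp only [eq_comm]

theorem LT_yop {H : MvPolynomial ι L} {e : ℕ} (he : 0 < e) (hH : H ∈ VV ι L (e + 1)) (i : ι)
    (h : L) (hi : coeff (Finsupp.single i e) (pderiv i H) = h)
    (hx : ∀ x : ι →₀ ℕ, x.degree = e → x ≠ Finsupp.single i e → coeff x (pderiv i H) = 0)
    {w : ι →₀ ℕ} {c : L} {P : MvPolynomial ι L} (hP : LT w c P) :
    LT (w + Finsupp.single i e) (h * c) (yop H i P) := by
  intro v hv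
  rw [map_add, Finsupp.degree_single] at hv
  have hne : ∀ y : ι →₀ ℕ, w.degree < y.degree → coeff y P = 0 := by
    intro y hy
    rw [hP y hy.le, if_neg]
    rintro rfl
    exact lt_irrefl _ hy
  rw [yop_apply, coeff_add, coeff_pderiv, hne _ (by rw [map_add, Finsupp.degree_single]; omega),
    zero_mul, zero_add, coeff_mul]
  have hterm : ∀ x ∈ Finset.HasAntidiagonal.antidiagonal v,
      coeff x.1 (pderiv i H) * coeff x.2 P =
        if x = (Finsupp.single i e, w) then h * c else 0 := by
    intro x hxv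
    rw [Finset.HasAntidiagonal.mem_antidiagonal] at hxv
    have hdeg : x.1.degree + x.2.degree = v.degree := by rw [← map_add, hxv]
    rcases lt_trichotomy x.1.degree e with h1 | h1 | h1
    · rw [hne x.2 (by omega), mul_zero, if_neg]
      intro h2
      rw [h2] at h1
      simp at h1
    · by_cases h2 : x.1 = Finsupp.single i e
      · rw [h2, hi, hP x.2 (by omega)]
        by_cases h3 : x.2 = w
        · rw [if_pos h3, if_pos (Prod.ext h2 h3)]
        · rw [if_neg h3, mul_zero, if_neg]
          intro h4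
          exact h3 (congrArg Prod.snd h4)
      · rw [hx x.1 h1 h2, zero_mul, if_neg]
        intro h4
        exact h2 (congrArg Prod.fst h4)
    · have h2 := pderiv_mem_VV hH i x.1 (by omega)
      rw [h2, zero_mul, if_neg]
      intro h4
      rw [h4] at h1
      simp at h1
  rw [Finset.sum_congr rfl hterm, Finset.sum_ite_eq']
  by_cases h1 : v = w + Finsupp.single i e
  · rw [if_pos h1, if_pos]
    rw [Finset.HasAntidiagonal.mem_antidiagonal, h1, add_comm]
  · rw [if_neg h1, if_neg]
    rw [Finset.HasAntidiagonal.mem_antidiagonal]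
    intro h2
    apply h1
    rw [← h2, add_comm]

/-- the leading form is diagonal -/
structure Dg (H : MvPolynomial ι L) (e : ℕ) (h : ι → L) : Prop where
  hH : H ∈ VV ι L (e + 1)
  hi : ∀ i, coeff (Finsupp.single i e) (pderiv i H) = h i
  hx : ∀ i, ∀ x : ι →₀ ℕ, x.degree = e → x ≠ Finsupp.single i e → coeff x (pderiv i H) = 0
  hu : ∀ i, IsUnit (h i)

theorem LT_yp {H : MvPolynomial ι L} {e : ℕ} (he : 0 < e) {h : ι → L} (D : Dg H e h)
    (γ : ι →₀ ℕ) : ∀ {w : ι →₀ ℕ} {c : L} {P : MvPolynomial ι L}, IsUnit c → LT w c P →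
      ∃ c', IsUnit c' ∧ LT (w + e • γ) c' (yp H γ P) := by
  induction γ using Finsupp.induction_linear with
  | zero =>
    intro w c P hc hP
    refine ⟨c, hc, ?_⟩
    rw [yp_zero, smul_zero, add_zero]
    exact hP
  | add f g hf hg =>
    intro w c P hc hP
    obtain ⟨c1, h1, h2⟩ := hg hc hP
    obtain ⟨c2, h3, h4⟩ := hf h1 h2
    refine ⟨c2, h3, ?_⟩
    rw [yp_add, Module.End.mul_apply, smul_add, add_comm (e • f), ← add_assoc]
    exact h4
  | single i a =>
    induction a with
    | zero =>
      intro w c P hc hP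
      refine ⟨c, hc, ?_⟩
      rw [yp_single, pow_zero, Finsupp.single_zero, smul_zero, add_zero]
      exact hP
    | succ a ih =>
      intro w c P hc hP
      obtain ⟨c1, h1, h2⟩ := ih hc hP
      refine ⟨h i * c1, (D.hu i).mul h1, ?_⟩
      rw [yp_single] at h2 ⊢
      rw [pow_succ', Module.End.mul_apply]
      have h3 := LT_yop he D.hH i (h i) (D.hi i) (D.hx i) h2
      have h4 : w + e • Finsupp.single i (a + 1) =
          w + e • Finsupp.single i a + Finsupp.single i e := by
        rw [add_assoc, Finsupp.smul_single, Finsupp.smul_single, ← Finsupp.single_add]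
        congr 2
      rw [h4]
      exact h3

theorem emb_rm_qt (e : ℕ) (he : 0 < e) (w : ι →₀ ℕ) : emb (rm e he w) + e • qt e w = w := by
  ext i
  rw [Finsupp.add_apply, Finsupp.smul_apply, smul_eq_mul, emb_apply]
  exact Nat.mod_add_div (w i) e

theorem LT_Phi {H : MvPolynomial ι L} {e : ℕ} (he : 0 < e) {h : ι → L} (D : Dg H e h)
    (w : ι →₀ ℕ) : ∃ c', IsUnit c' ∧ LT w c' (Phi H e he emb (monomial w 1)) := by
  obtain ⟨c, h1, h2⟩ := LT_yp he D (qt e w) isUnit_one (LT_monomial (emb (rm e he w)) (1 : L))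
  refine ⟨c, h1, ?_⟩
  rw [emb_rm_qt] at h2
  rw [Phi_monomial]
  exact h2

end LT

namespace S0

variable {p d : ℕ} [hp : Fact p.Prime] {K R : Type} [Field K] [CommRing R] [IsDomain R]
  (S : Setup p d K R) {ι : Type} [Fintype ι] [DecidableEq ι]

theorem isUnit_Q {N : ℕ} (hN : 1 ≤ N) (x : S.Q N) (hx : S.rho N hN x ≠ 0) : IsUnit x := by
  obtain ⟨y, hy⟩ := S.rho_surj N hN (S.rho N hN x)⁻¹
  obtain ⟨z, hz⟩ := S.rho_ker N hN (1 - x * y) (by
    rw [map_sub, map_one, map_mul, hy, mul_inv_cancel₀ hx, sub_self])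
  have h1 : IsNilpotent (1 - x * y) := by
    refine ⟨N, ?_⟩
    rw [hz, mul_pow, S.lam_nil, zero_mul]
  have h2 : IsUnit (x * y) := by
    have := h1.isUnit_one_sub
    rwa [sub_sub_cancel] at this
  exact isUnit_of_mul_isUnit_left h2

theorem coeff_Hh (N : ℕ) (f : MvPolynomial ι K) (t : ℕ) (s : ι →₀ ℕ) :
    coeff s (S.Hh N (Setup.su f) (S.tc f t)) =
      if s ∈ Setup.su f then S.rd N (S.tc f t s * S.lam ^ (d - s.degree)) else 0 := by
  rw [Setup.Hh, coeff_sum]
  simp only [coeff_monomial]
  rw [Finset.sum_ite_eq']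

theorem exists_Dg [CharP K p] (hd : 2 ≤ d) (hdp : d < p) (f : MvPolynomial ι K)
    (hf : f.totalDegree ≤ d)
    (hdiag : ∀ s : ι →₀ ℕ, s.degree = d → (∀ i, s ≠ Finsupp.single i d) → coeff s f = 0)
    (hne : ∀ i, coeff (Finsupp.single i d) f ≠ 0) (N : ℕ) (hN : 1 ≤ N) (t : ℕ) :
    ∃ h, Dg (S.Hh N (Setup.su f) (S.tc f t)) (d - 1) h := by
  classical
  have hd1 : d - 1 + 1 = d := by omega
  refine ⟨fun i => coeff (Finsupp.single i (d - 1)) (pderiv i (S.Hh N (Setup.su f) (S.tc f t))),
    ?_, fun i => rfl, ?_, ?_⟩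
  · rw [Setup.Hh]
    refine Submodule.sum_mem _ fun s hs => monomial_mem_VV ?_ _
    have := Setup.su_degree f hf s hs
    omega
  · intro i x hx1 hx2
    rw [coeff_pderiv, coeff_Hh]
    have hdeg : (x + Finsupp.single i 1).degree = d := by
      rw [map_add, Finsupp.degree_single]; omega
    rw [if_neg, zero_mul]
    intro hmem
    rw [Setup.su, Finset.mem_erase, mem_support_iff] at hmem
    apply hmem.2
    refine hdiag _ hdeg fun j hj => ?_
    by_cases hij : i = j
    · subst hij
      apply hx2
      have h1 : x + Finsupp.single i 1 = Finsupp.single i (d - 1) + Finsupp.single i 1 := by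
        rw [hj, ← Finsupp.single_add, hd1]
      exact add_right_cancel h1
    · have h1 := DFunLike.congr_fun hj i
      rw [Finsupp.add_apply, Finsupp.single_eq_same, Finsupp.single_eq_of_ne hij] at h1
      omega
  · intro i
    refine isUnit_Q S hN _ ?_
    have hs : Finsupp.single i (d - 1) + Finsupp.single i 1 = Finsupp.single i d := by
      rw [← Finsupp.single_add, hd1]
    have hmem : Finsupp.single i d ∈ Setup.su f := by
      rw [Setup.su, Finset.mem_erase, mem_support_iff]
      refine ⟨?_, hne i⟩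
      intro h0
      have := DFunLike.congr_fun h0 i
      rw [Finsupp.single_eq_same, Finsupp.zero_apply] at this
      omega
    rw [coeff_pderiv, hs, coeff_Hh, if_pos hmem, Finsupp.degree_single, Nat.sub_self, pow_zero,
      mul_one, map_mul, S.rho_rd, Setup.tc, map_pow, S.res_tau, Finsupp.single_eq_same, map_add,
      map_natCast, map_one]
    refine mul_ne_zero (pow_ne_zero _ (hne i)) ?_
    have h1 : ((d - 1 : ℕ) : K) + 1 = ((d : ℕ) : K) := by
      rw [← Nat.cast_add_one, hd1]
    rw [h1]
    intro h0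
    have h2 := (CharP.cast_eq_zero_iff K p d).1 h0
    have := Nat.le_of_dvd (by omega) h2
    omega

end S0

end Pool.Agent.H856.DV
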