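import Pool.Agent.H856.DV.Row
import Pool.Agent.H856.DW.Trans

set_option autoImplicit false
set_option linter.unusedSectionVars false
set_option linter.unusedVariables false

/-!
# The part of slope `c` of the Frobenius matrix for a diagonal leading form
-/

namespace Pool.Agent.H856.DV

open Pool.Agent.H425 Pool.Agent.H856.DW

namespace S0

variable {p d : ℕ} [hp : Fact p.Prime] {K R : Type} [Field K] [CommRing R] [IsDomain R]
  {S : Setup p d K R} {ι : Type} [Fintype ι] [DecidableEq ι]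
  {N : ℕ} {f : MvPolynomial ι K} {e : ℕ}

/-- the assumptions about the leading form -/
structure LF (d : ℕ) (f : MvPolynomial ι K) : Prop where
  hf : f.totalDegree ≤ d
  hdiag : ∀ s : ι →₀ ℕ, s.degree = d → (∀ i, s ≠ Finsupp.single i d) → MvPolynomial.coeff s f = 0
  hne : ∀ i, MvPolynomial.coeff (Finsupp.single i d) f ≠ 0

/-- the leading terms of the kernel -/
noncomputable def kd (S : Setup p d K R) (f : MvPolynomial ι K) (t : ℕ) (V U : ι →₀ ℕ) : K :=
  open Classical in if U ≤ p • V then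
    ∏ i, gx d (fun i => S.res (S.tc f t (Finsupp.single i d))) i ((p • V - U) i) else 0

theorem ker_lead [CharP K p] (hd : 0 < d) (hpd : 2 * d + 3 < p) (hL : LF d f)
    (t : ℕ) (V U : ι →₀ ℕ) (hV : ∀ i, V i < d) :
    ∃ z : R, S.ker (Setup.su f) (S.tc f t) V U = S.lam ^ ((p - 1) * V.degree) * z ∧
      S.res z = kd S f t V U := by
  classical
  have hp1 := hp.out.pos
  by_cases h : U ≤ p • V
  · have hspec := (S.ker_spec (by omega) (Setup.su f) (S.tc f t) (Setup.su_zero _)
      (Setup.su_degree _ hL.hf) V U).2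
    rw [Setup.Gk, if_pos h] at hspec
    have hdeg : (p • V - U).degree + U.degree = p * V.degree := by
      rw [← map_add, tsub_add_cancel_of_le h, map_nsmul, smul_eq_mul]
    obtain ⟨z, hz1, hz2⟩ := Bx_FF S hd hpd (Setup.su f) (S.tc f t) (Setup.su_zero _)
      (Setup.su_degree _ hL.hf) (by
        intro s hs hsd
        by_contra hcon
        push Not at hcon
        rw [Setup.su, Finset.mem_erase, MvPolynomial.mem_support_iff] at hs
        exact hs.2 (hL.hdiag s hsd hcon)) (by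
        intro i
        rw [Setup.su, Finset.mem_erase, MvPolynomial.mem_support_iff]
        refine ⟨?_, hL.hne i⟩
        rw [Ne, Finsupp.single_eq_zero]
        omega) (p • V - U) (by
        intro i
        rw [Finsupp.tsub_apply, Finsupp.smul_apply, smul_eq_mul]
        have h1 : p * V i < p * d := Nat.mul_lt_mul_of_pos_left (hV i) hp1
        omega)
    refine ⟨z, ?_, ?_⟩
    · rw [hz1] at hspec
      apply mul_left_cancel₀ (pow_ne_zero V.degree S.lam_ne)
      rw [hspec, ← mul_assoc, ← mul_assoc, ← pow_add, ← pow_add]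
      congr 2
      have h2 : (p - 1) * V.degree + V.degree = p * V.degree := by
        calc (p - 1) * V.degree + V.degree = (p - 1 + 1) * V.degree := by ring
          _ = _ := by rw [Nat.sub_add_cancel hp1]
      omega
    · rw [hz2, kd, if_pos h]
  · refine ⟨0, ?_, ?_⟩
    · rw [S.ker_eq_zero (by omega) (Setup.su f) (S.tc f t) (Setup.su_zero _)
        (Setup.su_degree _ hL.hf) V U h, mul_zero]
    · rw [map_zero, kd, if_neg h]

theorem weak {e0 w v : ℕ} (hpd : 2 * e0 + 3 < p) (hw : w ≤ e0) (hv : w < v) :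
    (p - 1) * w + 1 ≤ (p - 3) * v := by
  obtain ⟨q, rfl⟩ : ∃ q, p = q + 3 := ⟨p - 3, by omega⟩
  have h1 : q + 3 - 3 = q := by omega
  have h2 : q + 3 - 1 = q + 2 := by omega
  rw [h1, h2]
  have h3 : q * (w + 1) ≤ q * v := Nat.mul_le_mul_left _ hv
  nlinarith

/-- **the rows of the Frobenius matrices up to the level `e0`** -/
theorem Bt_low [CharP K p] (D : S.BD N f e emb) (hL : LF d f) (hn : 1 ≤ Fintype.card ι) (e0 : ℕ)
    (hd0 : d ≤ e0) (hpd : 2 * e0 + 3 < p)
    (t : ℕ) (u' u : ι → Fin e) (hu' : ∑ i, (u' i : ℕ) + Fintype.card ι ≤ e0) :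
    ∃ z : R, Setup.Bt D t u' u =
        S.rd N (S.lam ^ ((p - 1) * (∑ i, (u' i : ℕ) + Fintype.card ι)) * z) ∧
      S.res z = kd S f t (emb u' + oneA Finset.univ) (emb u + oneA Finset.univ) := by
  classical
  have hde := D.hde
  have he := D.he
  have hp5 := D.hp5
  have hd1 : 1 ≤ d := by omega
  set w := ∑ i, (u' i : ℕ) + Fintype.card ι with hwdef
  set Z := S.alt N f Finset.univ t (MvPolynomial.monomial (emb u) 1) with hZ
  have hcoeff : ∀ v, MvPolynomial.coeff v Z = S.kap N f t *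
      S.kb N (Setup.su f) (S.tc f t) (v + oneA Finset.univ) (emb u + oneA Finset.univ) := by
    intro v
    rw [hZ, S.coeff_alt (by omega) N f D.hf, mul_one]
  have hdeg1 : ∀ v : ι →₀ ℕ, (v + oneA (Finset.univ : Finset ι)).degree =
      v.degree + Fintype.card ι := by
    intro v
    rw [map_add, degree_oneA, Finset.card_univ]
  have hdvd : ∀ v : ι →₀ ℕ, ∑ i, (u' i : ℕ) < v.degree →
      (S.rd N S.lam) ^ ((p - 1) * w + 1) ∣ MvPolynomial.coeff v Z := by
    intro v hv
    rw [hcoeff]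
    refine Dvd.dvd.mul_left ?_ _
    rw [Setup.kb, ← map_pow]
    refine map_dvd (S.rd N) ?_
    have h1 := (S.ker_spec (by omega) (Setup.su f) (S.tc f t) (Setup.su_zero f)
      (Setup.su_degree f D.hf) (v + oneA Finset.univ) (emb u + oneA Finset.univ)).1
    rw [hdeg1] at h1
    exact (pow_dvd_pow _ (weak hpd hu' (by omega))).trans h1
  have hDg : ∃ h, Dg (S.Hh N (Setup.su f) (S.tc f (t + 1))) e h := by
    obtain ⟨h, hh⟩ := exists_Dg S (by omega) (by omega) f hL.hf hL.hdiag hL.hne N D.hN (t + 1)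
    have he1 : d - 1 = e := by omega
    rw [he1] at hh
    exact ⟨h, hh⟩
  obtain ⟨y, hy⟩ := row_approx D (t + 1) hDg u' ((p - 1) * w + 1) Z hdvd
  obtain ⟨y', rfl⟩ := Ideal.Quotient.mk_surjective y
  obtain ⟨k, hk1, hk2⟩ := DW.S0.kap_res (S := S) hp5 hd1 N f t
  have hbdeg : (emb u').degree = ∑ i, (u' i : ℕ) := DW.S0.degree_emb u'
  obtain ⟨z, hz1, hz2⟩ := ker_lead (S := S) (by omega) (by omega) hL t
    (emb u' + oneA Finset.univ) (emb u + oneA Finset.univ) (by
      intro i
      rw [Finsupp.add_apply, oneA_apply, if_pos (Finset.mem_univ i), emb_apply]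
      have := (u' i).2
      omega)
  rw [hdeg1, hbdeg, ← hwdef] at hz1
  refine ⟨k * z + S.lam * y', ?_, ?_⟩
  · have h1 : Setup.Bt D t u' u = MvPolynomial.coeff (emb u') ((Setup.EE D (t + 1)).symm Z) := by
      rw [Setup.Bt, Setup.gop_apply, DW.S0.EE_emb]
    have h2 : MvPolynomial.coeff (emb u') Z = S.rd N (k * (S.lam ^ ((p - 1) * w) * z)) := by
      rw [hcoeff, hk1, Setup.kb, hz1, ← map_mul]
    have h3 : MvPolynomial.coeff (emb u') ((Setup.EE D (t + 1)).symm Z) =
        MvPolynomial.coeff (emb u') Z +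
        (S.rd N S.lam) ^ ((p - 1) * w + 1) * S.rd N y' := by
      rw [← sub_eq_iff_eq_add', ← hy]
    rw [h1, h3, h2, ← map_pow, ← map_mul, ← map_add]
    congr 1
    ring
  · rw [map_add, map_mul, map_mul, hk2, hz2, S.res_lam, zero_mul, add_zero, one_mul]

theorem Bt_high (D : S.BD N f e emb) (e0 : ℕ) (hpd : 2 * e0 + 3 < p)
    (t : ℕ) (u' u : ι → Fin e) (hu' : e0 < ∑ i, (u' i : ℕ) + Fintype.card ι) :
    ∃ z : R, Setup.Bt D t u' u = S.rd N (S.lam ^ ((p - 1) * e0) * z) ∧ S.res z = 0 := by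
  have h1 := Setup.Bt_dvd D t u' u
  obtain ⟨y, hy⟩ := (pow_dvd_pow (S.rd N S.lam) (weak hpd le_rfl hu')).trans h1
  obtain ⟨y', rfl⟩ := Ideal.Quotient.mk_surjective y
  refine ⟨S.lam * y', ?_, ?_⟩
  · rw [hy, ← map_pow, ← map_mul]
    congr 1
    ring
  · rw [map_mul, S.res_lam, zero_mul]

/-- the residues of the diagonal entries -/
noncomputable def hdg (p d : ℕ) (f : MvPolynomial ι K) {e : ℕ} (t : ℕ) (u : ι → Fin e) : K :=
  ∏ i, ((((p - 1) * ((u i : ℕ) + 1) / d).factorial : ℕ) : K)⁻¹ *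
    (MvPolynomial.coeff (Finsupp.single i d) f ^ (p ^ t)) ^ ((p - 1) * ((u i : ℕ) + 1) / d)

theorem kd_eq (hde : d = e + 1) (hdp : d ∣ p - 1) (t : ℕ) (u' u : ι → Fin e) :
    kd S f t (emb u' + oneA Finset.univ) (emb u + oneA Finset.univ) =
      if u' = u then hdg p d f t u else 0 := by
  classical
  have hp1 := hp.out.one_lt
  have hdlep : d ≤ p - 1 := Nat.le_of_dvd (by omega) hdp
  have hval : ∀ v : ι → Fin e, ∀ i, (emb v + oneA (Finset.univ : Finset ι)) i = (v i : ℕ) + 1 := by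
    intro v i
    rw [Finsupp.add_apply, oneA_apply, if_pos (Finset.mem_univ i), emb_apply]
  have hle : ∀ i, (u i : ℕ) + 1 ≤ p * ((u' i : ℕ) + 1) := by
    intro i
    have h1 := (u i).2
    calc (u i : ℕ) + 1 ≤ p := by omega
      _ ≤ p * ((u' i : ℕ) + 1) := Nat.le_mul_of_pos_right p (by omega)
  rw [kd, if_pos]
  · have hco : ∀ i, (p • (emb u' + oneA (Finset.univ : Finset ι)) -
        (emb u + oneA (Finset.univ : Finset ι))) i = p * ((u' i : ℕ) + 1) - ((u i : ℕ) + 1) := by
      intro i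
      rw [Finsupp.tsub_apply, Finsupp.smul_apply, smul_eq_mul, hval, hval]
    simp only [hco]
    split_ifs with h
    · subst h
      rw [hdg]
      refine Finset.prod_congr rfl fun i _ => ?_
      have h1 : p * ((u' i : ℕ) + 1) - ((u' i : ℕ) + 1) = (p - 1) * ((u' i : ℕ) + 1) := by
        rw [Nat.sub_mul, one_mul]
      rw [h1, gx, if_pos (Dvd.dvd.mul_right hdp _)]
      simp only [Setup.tc]
      rw [map_pow, S.res_tau]
    · obtain ⟨i, hi⟩ : ∃ i, u' i ≠ u i := by
        by_contra hcon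
        push Not at hcon
        exact h (funext hcon)
      refine Finset.prod_eq_zero (Finset.mem_univ i) ?_
      rw [gx, if_neg]
      intro h1
      apply hi
      have h2 : (d : ℤ) ∣ ((p * ((u' i : ℕ) + 1) - ((u i : ℕ) + 1) : ℕ) : ℤ) := by exact_mod_cast h1
      rw [Nat.cast_sub (hle i)] at h2
      push_cast at h2
      have h3 : (d : ℤ) ∣ ((p : ℤ) - 1) := by
        have : ((p - 1 : ℕ) : ℤ) = (p : ℤ) - 1 := by
          rw [Nat.cast_sub (by omega)]
          rfl
        rw [← this]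
        exact_mod_cast hdp
      have h4 : (d : ℤ) ∣ ((u' i : ℕ) : ℤ) - ((u i : ℕ) : ℤ) := by
        have h5 : (((u' i : ℕ) : ℤ) - ((u i : ℕ) : ℤ)) =
            ((p : ℤ) * (((u' i : ℕ) : ℤ) + 1) - (((u i : ℕ) : ℤ) + 1)) -
            ((p : ℤ) - 1) * (((u' i : ℕ) : ℤ) + 1) := by ring
        rw [h5]
        exact dvd_sub h2 (Dvd.dvd.mul_right h3 _)
      have h5 : ((u' i : ℕ) : ℤ) - ((u i : ℕ) : ℤ) = 0 := by
        refine Int.eq_zero_of_abs_lt_dvd h4 ?_
        have h6 := (u i).2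
        have h7 := (u' i).2
        rw [abs_lt]
        constructor <;> omega
      exact Fin.ext (by omega)
  · intro i
    rw [Finsupp.smul_apply, smul_eq_mul, hval, hval]
    exact hle i

theorem hdg_ne [CharP K p] (hde : d = e + 1) (hdp : d ∣ p - 1) (hL : LF d f) (t : ℕ)
    (u : ι → Fin e) : hdg p d f t u ≠ 0 := by
  have hp1 := hp.out.one_lt
  rw [hdg]
  refine Finset.prod_ne_zero_iff.2 fun i _ => ?_
  refine mul_ne_zero (inv_ne_zero (fac_ne hp.out ?_)) (pow_ne_zero _ (pow_ne_zero _ (hL.hne i)))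
  have h1 := (u i).2
  have h2 : (p - 1) * ((u i : ℕ) + 1) / d ≤ (p - 1) * d / d :=
    Nat.div_le_div_right (Nat.mul_le_mul_left _ (by omega))
  rw [Nat.mul_div_cancel _ (by omega)] at h2
  omega

/-- the level of an index -/
def lv (ι : Type) [Fintype ι] (e0 : ℕ) {e : ℕ} (u : ι → Fin e) : ℕ :=
  min (∑ i, (u i : ℕ) + Fintype.card ι) (e0 + 1)

/-- the residues -/
noncomputable def Hm (p d : ℕ) (e0 : ℕ) (f : MvPolynomial ι K) {e : ℕ} (t : ℕ) :
    Matrix (ι → Fin e) (ι → Fin e) K :=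
  Matrix.diagonal fun i => if ∑ l, (i l : ℕ) + Fintype.card ι ≤ e0 then hdg p d f t i else 0

theorem exists_z [CharP K p] (D : S.BD N f e emb) (hL : LF d f) (hn : 1 ≤ Fintype.card ι)
    (hdp : d ∣ p - 1) (e0 : ℕ)
    (hd0 : d ≤ e0) (hpd : 2 * e0 + 3 < p) (t : ℕ) (i j : ι → Fin e) :
    ∃ z : R, Setup.Bt D t i j = S.rd N (S.lam ^ ((p - 1) * min (lv ι e0 i) e0) * z) ∧
      S.res z = Hm p d e0 f t i j := by
  have hde := D.hde
  by_cases h : ∑ l, (i l : ℕ) + Fintype.card ι ≤ e0
  · obtain ⟨z, h1, h2⟩ := Bt_low D hL hn e0 hd0 hpd t i j h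
    refine ⟨z, ?_, ?_⟩
    · rw [h1]
      congr 3
      rw [lv, min_eq_left (by omega : ∑ l, (i l : ℕ) + Fintype.card ι ≤ e0 + 1), min_eq_left h]
    · rw [h2, kd_eq hde hdp, Hm, Matrix.diagonal_apply]
      by_cases hij : i = j
      · subst hij
        rw [if_pos rfl, if_pos rfl, if_pos h]
      · rw [if_neg hij, if_neg hij]
  · obtain ⟨z, h1, h2⟩ := Bt_high D e0 hpd t i j (by omega)
    refine ⟨z, ?_, ?_⟩
    · rw [h1]
      congr 3
      rw [lv, min_eq_right (by omega : e0 + 1 ≤ ∑ l, (i l : ℕ) + Fintype.card ι),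
        min_eq_right (by omega)]
    · rw [h2, Hm, Matrix.diagonal_apply, if_neg h, ite_self]

theorem lv_eq {e0 k : ℕ} (hk : k ≤ e0) {i : ι → Fin e} :
    lv ι e0 i = k ↔ ∑ l, (i l : ℕ) + Fintype.card ι = k := by
  rw [lv]
  constructor
  · intro h
    rcases min_choice (∑ l, (i l : ℕ) + Fintype.card ι) (e0 + 1) with h1 | h1
    · rw [h1] at h; exact h
    · rw [h1] at h; omega
  · intro h
    rw [min_eq_left (by omega), h]

theorem sub_diag (e0 k : ℕ) (hk : k ≤ e0) (t : ℕ) :
    (Hm p d e0 f t).submatrix (Subtype.val : {i : ι → Fin e // lv ι e0 i = k} → _) Subtype.val =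
      Matrix.diagonal fun i => hdg p d f t i.1 := by
  ext i j
  rw [Matrix.submatrix_apply, Hm, Matrix.diagonal_apply, Matrix.diagonal_apply]
  by_cases h : i = j
  · subst h
    rw [if_pos rfl, if_pos rfl, if_pos]
    rw [(lv_eq hk).1 i.2]
    exact hk
  · rw [if_neg h, if_neg (fun h' => h (Subtype.ext h'))]

/-- the residue of the eigenvalue that belongs to an index, divided by the power of `p` -/
noncomputable def rs (p d c : ℕ) (f : MvPolynomial ι K) (m : ℕ) {e : ℕ} (u : ι → Fin e) : K :=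
  ∏ t ∈ Finset.range (m + 1), ((-1) ^ c * hdg p d f t u)

/-- the exponent of the leading term -/
def Ex (ι : Type) [Fintype ι] [DecidableEq ι] (p e0 e m : ℕ) : ℕ :=
  ∑ x : Fin (m + 1) × (ι → Fin e), (p - 1) * min (lv ι e0 x.2) e0

/-- **the leading term at the slope `c`** -/
theorem loc [CharP K p] (D : S.BD N f e emb) (hL : LF d f) (hn : 1 ≤ Fintype.card ι)
    (hdp : d ∣ p - 1) (c : ℕ) (hc : 1 ≤ c) (hpd : 2 * (c * d) + 3 < p) (m : ℕ) :
    ∃ (M : Matrix (ι → Fin e) (ι → Fin e) R) (G : Polynomial R) (u : K) (r : ℕ), u ≠ 0 ∧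
      M.map (S.rd N) = prodn (Setup.Bt D) (m + 1) ∧
      M.charpoly.comp (Polynomial.C (((p : R) ^ c) ^ (m + 1)) * Polynomial.X) =
        Polynomial.C (S.lam ^ Ex ι p (c * d) e m) * G ∧
      G.map S.res = Polynomial.C u * Polynomial.X ^ r *
        ∏ i : {i : ι → Fin e // lv ι (c * d) i = c * d},
          (Polynomial.X - Polynomial.C (rs p d c f m i.1)) := by
  have hde := D.hde
  have hp1 := hp.out.one_lt
  have hd : 0 < d := by omega
  have hd0 : d ≤ c * d := Nat.le_mul_of_pos_left d hc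
  choose z hz1 hz2 using exists_z D hL hn hdp (c * d) hd0 hpd
  obtain ⟨G, u, r, hu, h1, h2⟩ := spec S m c (c * d) rfl (lv ι (c * d)) z (Hm p d (c * d) f) hz2
    (fun t i j hij => by
      rw [Hm, Matrix.diagonal_apply_ne]
      rintro rfl
      exact lt_irrefl _ hij) (fun t i j hij => by
      rw [Hm, Matrix.diagonal_apply]
      split_ifs with h1 h2
      · rw [lv, min_eq_left (by omega)] at hij
        omega
      · rfl
      · rfl) (by
      intro k hk t
      rw [sub_diag (c * d) k hk.le t, Matrix.det_diagonal]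
      exact Finset.prod_ne_zero_iff.2 fun i _ => hdg_ne hde hdp hL t i.1)
  refine ⟨prodn (scl S (c * d) (lv ι (c * d)) z) (m + 1), G, u, r, hu, ?_, h1, ?_⟩
  · rw [← prodn_map]
    congr 1
    funext t
    ext i j
    rw [Matrix.map_apply, hz1]
    rfl
  · rw [h2]
    congr 1
    have h3 : (fun t => ((-1 : K) ^ c) • (Hm p d (c * d) f t).submatrix
        (Subtype.val : {i : ι → Fin e // lv ι (c * d) i = c * d} → _) Subtype.val) =
        fun t => Matrix.diagonal fun i => (-1) ^ c * hdg p d f t i.1 := by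
      funext t
      rw [sub_diag (c * d) (c * d) le_rfl t]
      ext i j
      rw [Matrix.smul_apply, Matrix.diagonal_apply, Matrix.diagonal_apply, smul_eq_mul, mul_ite,
        mul_zero]
    rw [h3, prodn_diagonal, Matrix.charpoly_diagonal]
    rfl

theorem mult_prod {I : Type} [Fintype I] [DecidableEq I] (a : I → K) [DecidableEq K] :
    (∏ i, (Polynomial.X - Polynomial.C (a i))).rootMultiplicity 1 =
      Fintype.card {i // a i = 1} := by
  rw [← Polynomial.count_roots, Polynomial.roots_prod _ _ (Finset.prod_ne_zero_iff.2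
    fun i _ => Polynomial.X_sub_C_ne_zero _)]
  simp only [Polynomial.roots_X_sub_C, Multiset.bind_singleton]
  rw [Multiset.count_map, Fintype.card_subtype]
  simp only [eq_comm]
  rfl

end S0

end Pool.Agent.H856.DV
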