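import Pool.Agent.H856.DV.Trans

set_option autoImplicit false
set_option linter.unusedSectionVars false
set_option linter.unusedVariables false

/-!
# The multiplicity of `q ^ c` for Artin-Schreier hypersurfaces over one finite field
-/

namespace Pool.Agent.H856.DV

open Pool.Agent.H425 Pool.Agent.H856.DW Polynomial

theorem totalDegree_map_le' {k K : Type} [Field k] [Field K] {ι : Type} (φ : k →+* K)
    (f : MvPolynomial ι k) : (MvPolynomial.map φ f).totalDegree ≤ f.totalDegree := by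
  unfold MvPolynomial.totalDegree
  exact Finset.sup_mono (MvPolynomial.support_map_subset φ f)

theorem LF_map {k K : Type} [Field k] [Field K] {ι : Type} [Fintype ι] [DecidableEq ι]
    (φ : k →+* K) {d : ℕ} {f : MvPolynomial ι k} (h : S0.LF d f) :
    S0.LF d (MvPolynomial.map φ f) where
  hf := (totalDegree_map_le' φ f).trans h.hf
  hdiag := fun s hs hne => by rw [MvPolynomial.coeff_map, h.hdiag s hs hne, map_zero]
  hne := fun i => by
    rw [MvPolynomial.coeff_map]
    exact (_root_.map_ne_zero φ).2 (h.hne i)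

theorem rs_map {k K : Type} [Field k] [Field K] {ι : Type} [Fintype ι] [DecidableEq ι]
    (φ : k →+* K) (p d c : ℕ) (f : MvPolynomial ι k) (m : ℕ) {e : ℕ} (u : ι → Fin e) :
    S0.rs p d c (MvPolynomial.map φ f) m u = φ (S0.rs p d c f m u) := by
  rw [S0.rs, S0.rs, map_prod]
  refine Finset.prod_congr rfl fun t _ => ?_
  rw [map_mul, map_pow, map_neg, map_one, S0.hdg, S0.hdg, map_prod]
  congr 1
  refine Finset.prod_congr rfl fun i _ => ?_
  rw [map_mul, map_inv₀, map_natCast, map_pow, map_pow, MvPolynomial.coeff_map]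

/-- **the spectrum and the multiplicity of `q ^ c`**, with a given cyclotomic field -/
theorem main_aux (p : ℕ) [hp : Fact p.Prime] (F : Type) [Field F] [Algebra ℚ F]
    [IsCyclotomicExtension {p} ℚ F] {k : Type} [Field k] [Finite k] [CharP k p] (d c : ℕ)
    (hd : 2 ≤ d) (hc : 1 ≤ c) (hdp : d ∣ p - 1) (hpd : 2 * (c * d) + 3 < p) {ι : Type} [Fintype ι]
    [DecidableEq ι] (hcardι : Fintype.card ι = 2 * c) (f : MvPolynomial ι k)
    (hL : S0.LF d f) (m : ℕ) (hm : Nat.card k = p ^ (m + 1)) [DecidableEq ℂ] :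
    ∃ Γ : Multiset ℂ, Γ.card = (p - 1) * (d - 1) ^ (2 * c) ∧
      (∀ (L : Type) [Field L] [Finite L] [Algebra k L],
        (Nat.card {P : (ι → L) × L // P.2 ^ p - P.2 = MvPolynomial.aeval P.1 f} : ℂ) =
          (Nat.card L : ℂ) ^ (2 * c) + (Γ.map (fun γ => γ ^ Module.finrank k L)).sum) ∧
      Γ.count ((Nat.card k : ℂ) ^ c) ≤
        (p - 1) * Nat.card {u : ι → Fin (d - 1) // ∑ i, ((u i : ℕ) + 1) = c * d ∧
          S0.rs p d c f m u = 1} := by
  classical
  have := Fintype.ofFinite k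
  let K := AlgebraicClosure k
  have hKp : CharP K p := charP_of_injective_algebraMap (algebraMap k K).injective p
  have hp1 := hp.out.one_lt
  have hdc : d ≤ c * d := Nat.le_mul_of_pos_left d hc
  set fK := MvPolynomial.map (algebraMap k K) f with hfK
  have hLK : S0.LF d fK := LF_map _ hL
  have hfrob : ∀ s : ℕ, ∀ e, MvPolynomial.coeff e fK ^ (p ^ ((m + 1) * s)) =
      MvPolynomial.coeff e fK := by
    intro s e
    rw [hfK, MvPolynomial.coeff_map, ← map_pow, pow_mul, ← hm, Nat.card_eq_fintype_card,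
      FiniteField.pow_card_pow]
  have hfm : ∀ e, MvPolynomial.coeff e fK ^ (p ^ (m + 1)) = MvPolynomial.coeff e fK := by
    intro e
    have := hfrob 1 e
    rwa [mul_one] at this
  -- the ring
  have hdom : IsDomain (Constr.RR p (d * (p - 1)) K) :=
    Constr.RR_domain p _ K (Nat.mul_pos (by omega) (by omega))
  let S := Constr.setup p K d (by omega) hdom
  -- the cyclotomic field
  have hζ0 : IsPrimitiveRoot (IsCyclotomicExtension.zeta p ℚ F) p :=
    IsCyclotomicExtension.zeta_spec p ℚ F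
  set ζ := IsCyclotomicExtension.zeta p ℚ F with hζdef
  have hFch : CharZero F := charZero_of_injective_algebraMap (algebraMap ℚ F).injective
  obtain ⟨σ⟩ : Nonempty (F →+* ℂ) := by
    have : FiniteDimensional ℚ F := IsCyclotomicExtension.finiteDimensional {p} ℚ F
    have : Algebra.IsAlgebraic ℚ F := inferInstance
    exact ⟨((IsAlgClosed.lift : F →ₐ[ℚ] ℂ) : F →+* ℂ)⟩
  set n := (d - 1) ^ (2 * c) with hn
  set μ := (S0.RP p d c fK m (d - 1)).rootMultiplicity 1 with hμ
  have hμle : μ ≤ Nat.card {u : ι → Fin (d - 1) // ∑ i, ((u i : ℕ) + 1) = c * d ∧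
          S0.rs p d c f m u = 1} := by
    rw [hμ, S0.RP, S0.mult_prod, ← Nat.card_eq_fintype_card]
    refine Nat.card_le_card_of_injective
      (fun x => ⟨x.1.1, ?_, ?_⟩) ?_
    · have h1 := (S0.lv_eq le_rfl).1 x.1.2
      rw [Finset.sum_add_distrib, Finset.sum_const, Finset.card_univ, smul_eq_mul, mul_one]
      exact h1
    · have h1 := x.2
      have h2 := rs_map (algebraMap k K) p d c f m x.1.1
      exact (algebraMap k K).injective ((h2.symm.trans h1).trans (map_one _).symm)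
    · intro x y hxy
      have h1 : x.1.1 = y.1.1 := Subtype.mk.inj hxy
      exact Subtype.ext (Subtype.ext h1)
  let Se : ℕ → ℕ → F := fun j s => expSum p fK ((m + 1) * s) (ζ ^ j)
  let a : ℕ → ℕ → F := fun j => cseq (Se j)
  have hprim : ∀ j ∈ Finset.Ico 1 p, IsPrimitiveRoot (ζ ^ j) p := by
    intro j hj
    rw [Finset.mem_Ico] at hj
    exact hζ0.pow_of_coprime j (Nat.coprime_of_lt_prime (by omega) hj.2 hp.out).symm
  have htr : ∀ j ∈ Finset.Ico 1 p, (∀ r, n < r → a j r = 0) ∧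
      Tk (a j) n (((p : F) ^ c) ^ (m + 1)) μ ≠ 0 := by
    intro j hj
    exact S0.trans S hd c hc hcardι hpd hdp fK hLK m hfm (ζ ^ j)
      (hprim j hj) (a j) (cseq_zero _) (cseq_succ (Se j))
  let cC : ℕ → ℕ → ℂ := fun j r => σ (a j r)
  have hcC0 : ∀ j, cC j 0 = 1 := by
    intro j
    change σ (cseq (Se j) 0) = 1
    rw [cseq_zero, map_one]
  have hcC : ∀ j, ∀ r, ((r + 1 : ℕ) : ℂ) * cC j (r + 1) =
      -∑ l ∈ Finset.range (r + 1), σ (Se j (l + 1)) * cC j (r - l) := by
    intro j r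
    have h1 := congrArg σ (cseq_succ (Se j) r)
    rw [map_mul, map_natCast, map_neg, map_sum] at h1
    rw [h1]
    congr 1
    exact Finset.sum_congr rfl fun l _ => map_mul _ _ _
  let Γj : ℕ → Multiset ℂ := fun j => (PP (cC j) n).roots
  have hcard : ∀ j, (Γj j).card = n := by
    intro j
    have h1 := PP_monic (cC j) n (hcC0 j)
    exact (IsAlgClosed.splits (PP (cC j) n)).natDegree_eq_card_roots.symm.trans h1.2
  have hsum : ∀ j ∈ Finset.Ico 1 p, ∀ s, 1 ≤ s →
      ((Γj j).map (fun x => x ^ s)).sum = σ (Se j s) := by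
    intro j hj s hs
    obtain ⟨s', rfl⟩ := Nat.exists_eq_add_of_le' hs
    exact roots_powerSum (fun s => σ (Se j s)) (cC j) n (hcC0 j) (hcC j) (by
      intro r hr
      change σ (a j r) = 0
      rw [(htr j hj).1 r hr, map_zero]) s'
  have hcount : ∀ j ∈ Finset.Ico 1 p, (Γj j).count ((Nat.card k : ℂ) ^ c) ≤ μ := by
    intro j hj
    refine count_le_of_Tk (cC j) n (hcC0 j) _ μ ?_
    have hpk : (Nat.card k : ℂ) ^ c = ((p : ℂ) ^ c) ^ (m + 1) := by
      rw [hm, Nat.cast_pow, ← pow_mul, ← pow_mul, mul_comm]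
    have h1 : Tk (cC j) n ((Nat.card k : ℂ) ^ c) μ =
        σ (Tk (a j) n (((p : F) ^ c) ^ (m + 1)) μ) := by
      rw [Tk, Tk, map_sum, hpk]
      refine Finset.sum_congr rfl fun r _ => ?_
      rw [map_mul, map_mul, map_pow, map_pow, map_pow, map_natCast, map_natCast]
    rw [h1]
    exact (_root_.map_ne_zero σ).2 (htr j hj).2
  refine ⟨∑ j ∈ Finset.Ico 1 p, Γj j, ?_, ?_, ?_⟩
  · have h1 : Multiset.card (∑ j ∈ Finset.Ico 1 p, Γj j) =
        ∑ j ∈ Finset.Ico 1 p, Multiset.card (Γj j) :=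
      map_sum (Multiset.cardHom : Multiset ℂ →+ ℕ) _ _
    rw [h1, Finset.sum_congr rfl (fun j _ => hcard j), Finset.sum_const, Nat.card_Ico,
      smul_eq_mul]
  · intro L _ _ _
    have hfin : Module.Finite k L := inferInstance
    set s := Module.finrank k L with hs
    have hs1 : 1 ≤ s := Module.finrank_pos
    have hLcard : Nat.card L = p ^ ((m + 1) * s) := by
      rw [Module.natCard_eq_pow_finrank (K := k), hm, pow_mul]
    have h1 := card_transfer (p := p) (K := K) f L ((m + 1) * s) hLcard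
      (IsAlgClosed.lift : L →ₐ[k] K)
    rw [h1, card_fibres, points_expSum fK ((m + 1) * s) (Nat.mul_pos (by omega) hs1) (hfrob s)
      (σ ζ) (hζ0.map_of_injective σ.injective), ← hLcard, hcardι]
    congr 1
    have h2 : Multiset.map (fun γ => γ ^ s) (∑ j ∈ Finset.Ico 1 p, Γj j) =
        ∑ j ∈ Finset.Ico 1 p, Multiset.map (fun γ => γ ^ s) (Γj j) :=
      map_sum (Multiset.mapAddMonoidHom (fun γ : ℂ => γ ^ s)) _ _
    have h3 : (∑ j ∈ Finset.Ico 1 p, Multiset.map (fun γ => γ ^ s) (Γj j)).sum =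
        ∑ j ∈ Finset.Ico 1 p, (Multiset.map (fun γ => γ ^ s) (Γj j)).sum :=
      map_sum (Multiset.sumAddMonoidHom : Multiset ℂ →+ ℂ) _ _
    rw [h2, h3]
    refine Finset.sum_congr rfl fun j hj => ?_
    rw [hsum j hj s hs1, map_expSum, map_pow]
  · rw [Multiset.count_sum']
    refine (Finset.sum_le_card_nsmul _ _ μ hcount).trans ?_
    rw [Nat.card_Ico, smul_eq_mul]
    exact Nat.mul_le_mul_left _ hμle

/-- **the spectrum and the multiplicity of `q ^ c`** -/
theorem main (p : ℕ) [hp : Fact p.Prime] {k : Type} [Field k] [Finite k] [CharP k p] (d c : ℕ)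
    (hd : 2 ≤ d) (hc : 1 ≤ c) (hdp : d ∣ p - 1) (hpd : 2 * (c * d) + 3 < p) {ι : Type} [Fintype ι]
    [DecidableEq ι] (hcardι : Fintype.card ι = 2 * c) (f : MvPolynomial ι k)
    (hL : S0.LF d f) (m : ℕ) (hm : Nat.card k = p ^ (m + 1)) [DecidableEq ℂ] :
    ∃ Γ : Multiset ℂ, Γ.card = (p - 1) * (d - 1) ^ (2 * c) ∧
      (∀ (L : Type) [Field L] [Finite L] [Algebra k L],
        (Nat.card {P : (ι → L) × L // P.2 ^ p - P.2 = MvPolynomial.aeval P.1 f} : ℂ) =
          (Nat.card L : ℂ) ^ (2 * c) + (Γ.map (fun γ => γ ^ Module.finrank k L)).sum) ∧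
      Γ.count ((Nat.card k : ℂ) ^ c) ≤
        (p - 1) * Nat.card {u : ι → Fin (d - 1) // ∑ i, ((u i : ℕ) + 1) = c * d ∧
          S0.rs p d c f m u = 1} := by
  have : @IsCyclotomicExtension {p} ℚ (CyclotomicField p ℚ) _ _ (CyclotomicField.algebra p ℚ) := by
    infer_instance
  exact @main_aux p _ (CyclotomicField p ℚ) _ (CyclotomicField.algebra p ℚ) this k _ _ _ d c hd hc
    hdp hpd ι _ _ hcardι f hL m hm _

end Pool.Agent.H856.DV
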