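import Pool.Agent.H856.DV.Basis

set_option autoImplicit false
set_option linter.unusedSectionVars false
set_option linter.unusedVariables false

/-!
# The rows of the Frobenius matrices for a diagonal leading form
-/

namespace Pool.Agent.H856.DV

open Pool.Agent.H425 Pool.Agent.H856.DW MvPolynomial

section sep

variable {ι : Type} [Fintype ι] [DecidableEq ι] {K : Type} [Field K]

/-- products of functions of separate variables -/
def phi (g : ι → ℕ → K) (A : Finset ι) (w : ι →₀ ℕ) : K :=
  if ∀ i, i ∉ A → w i = 0 then ∏ i ∈ A, g i (w i) else 0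

theorem phi_univ (g : ι → ℕ → K) (w : ι →₀ ℕ) : phi g Finset.univ w = ∏ i, g i (w i) := by
  rw [phi, if_pos]
  intro i hi
  exact absurd (Finset.mem_univ i) hi

theorem conv_sep (g : ι → ℕ → K) (A : Finset ι) (i : ι) (hi : i ∉ A) (w : ι →₀ ℕ) :
    ∑ x ∈ Finset.HasAntidiagonal.antidiagonal w, phi g {i} x.1 * phi g A x.2 =
      phi g (insert i A) w := by
  rw [Finset.sum_eq_single (Finsupp.single i (w i), w.erase i)]
  · have h1 : phi g {i} (Finsupp.single i (w i)) = g i (w i) := by
      rw [phi, if_pos, Finset.prod_singleton, Finsupp.single_eq_same]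
      intro j hj
      rw [Finset.mem_singleton] at hj
      exact Finsupp.single_eq_of_ne hj
    rw [h1, phi, phi]
    have h2 : ∏ j ∈ A, g j ((w.erase i) j) = ∏ j ∈ A, g j (w j) := by
      refine Finset.prod_congr rfl fun j hj => ?_
      rw [Finsupp.erase_ne]
      rintro rfl
      exact hi hj
    by_cases h : ∀ j, j ∉ insert i A → w j = 0
    · rw [if_pos h, if_pos, h2, Finset.prod_insert hi]
      intro j hj
      by_cases hij : j = i
      · subst hij
        rw [Finsupp.erase_same]
      · rw [Finsupp.erase_ne hij]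
        refine h j fun hj2 => ?_
        rw [Finset.mem_insert] at hj2
        rcases hj2 with h3 | h3
        · exact hij h3
        · exact hj h3
    · rw [if_neg h, if_neg, mul_zero]
      intro h3
      apply h
      intro j hj
      rw [Finset.mem_insert, not_or] at hj
      have := h3 j hj.2
      rwa [Finsupp.erase_ne hj.1] at this
  · intro x hx hne
    rw [Finset.HasAntidiagonal.mem_antidiagonal] at hx
    by_contra hcon
    apply hne
    have h1 : ∀ j, j ∉ ({i} : Finset ι) → x.1 j = 0 := by
      by_contra h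
      apply hcon
      rw [phi, if_neg h, zero_mul]
    have h2 : ∀ j, j ∉ A → x.2 j = 0 := by
      by_contra h
      apply hcon
      rw [mul_comm, phi, if_neg h, zero_mul]
    have h3 : x.1 = Finsupp.single i (w i) := by
      ext j
      by_cases hij : j = i
      · subst hij
        rw [Finsupp.single_eq_same, ← hx, Finsupp.add_apply, h2 j hi, add_zero]
      · rw [Finsupp.single_eq_of_ne hij]
        exact h1 j (by rwa [Finset.mem_singleton])
    have h4 : x.2 = w.erase i := by
      ext j
      by_cases hij : j = i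
      · subst hij
        rw [Finsupp.erase_same]
        exact h2 j hi
      · rw [Finsupp.erase_ne hij, ← hx, Finsupp.add_apply,
          h1 j (by rwa [Finset.mem_singleton]), zero_add]
    exact Prod.ext h3 h4
  · intro h
    exfalso
    apply h
    rw [Finset.HasAntidiagonal.mem_antidiagonal]
    exact Finsupp.single_add_erase i w

end sep

namespace S0

variable {p d : ℕ} [hp : Fact p.Prime] {K R : Type} [Field K] [CommRing R] [IsDomain R]
  {S : Setup p d K R} {ι : Type} [Fintype ι] [DecidableEq ι]
  {N : ℕ} {f : MvPolynomial ι K} {e : ℕ}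

theorem EE_symm_top (D : S.BD N f e emb) (t : ℕ)
    (hDg : ∃ h, Dg (S.Hh N (Setup.su f) (S.tc f t)) e h) (u' : ι → Fin e) (v : ι →₀ ℕ)
    (hv : v.degree = ∑ i, (u' i : ℕ)) (hne : v ≠ emb u') :
    coeff (emb u') ((Setup.EE D t).symm (monomial v 1)) = 0 := by
  obtain ⟨h, hD⟩ := hDg
  obtain ⟨c, hc, hLT⟩ := LT_Phi D.he hD v
  rw [← Setup.EE_apply D t] at hLT
  have hdeg : (emb u').degree = ∑ i, (u' i : ℕ) := DW.S0.degree_emb u'
  have hpos : 1 ≤ v.degree := by
    by_contra h0
    have h1 : v.degree = 0 := by omega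
    have h2 : (emb u').degree = 0 := by rw [hdeg, ← hv, h1]
    apply hne
    rw [(Finsupp.degree_eq_zero_iff v).1 h1, (Finsupp.degree_eq_zero_iff _).1 h2]
  have hZ : Setup.EE D t (monomial v 1) - monomial v c ∈ VV ι (S.Q N) (v.degree - 1) := by
    intro m hm
    rw [coeff_sub, hLT m (by omega), coeff_monomial]
    by_cases h1 : m = v
    · rw [if_pos h1, if_pos h1.symm, sub_self]
    · rw [if_neg h1, if_neg (Ne.symm h1), sub_self]
  have h2 := Setup.EE_symm_mem D t hZ (emb u') (by rw [hdeg, ← hv]; omega)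
  have h3 : (monomial v c : MvPolynomial ι (S.Q N)) = c • monomial v (1 : S.Q N) := by
    rw [smul_monomial, smul_eq_mul, mul_one]
  rw [map_sub, LinearEquiv.symm_apply_apply, h3, map_smul, coeff_sub, coeff_monomial, if_neg hne,
    zero_sub, neg_eq_zero, coeff_smul, smul_eq_mul] at h2
  exact (hc.mul_right_eq_zero).1 h2

/-- the coefficients of the inverse of the adapted basis -/
theorem row_approx (D : S.BD N f e emb) (t : ℕ)
    (hDg : ∃ h, Dg (S.Hh N (Setup.su f) (S.tc f t)) e h) (u' : ι → Fin e) (c : ℕ)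
    (Z : MvPolynomial ι (S.Q N))
    (hZ : ∀ v : ι →₀ ℕ, ∑ i, (u' i : ℕ) < v.degree → (S.rd N S.lam) ^ c ∣ coeff v Z) :
    (S.rd N S.lam) ^ c ∣ coeff (emb u') ((Setup.EE D t).symm Z) - coeff (emb u') Z := by
  set j := ∑ i, (u' i : ℕ) with hj
  obtain ⟨M0, hM0⟩ := exists_VV Z
  have hM := VV_mono (Nat.le_max_left M0 j) hM0
  set M := max M0 j with hMdef
  have hbdeg : (emb u').degree = j := DW.S0.degree_emb u'
  have h1 : coeff (emb u') ((Setup.EE D t).symm Z) =
      ∑ v ∈ DD ι M, coeff v Z * coeff (emb u') ((Setup.EE D t).symm (monomial v 1)) := by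
    conv_lhs => rw [eq_sum_DD hM]
    rw [map_sum, coeff_sum]
    refine Finset.sum_congr rfl fun v _ => ?_
    have : monomial v (coeff v Z) = coeff v Z • monomial v (1 : S.Q N) := by
      rw [smul_monomial, smul_eq_mul, mul_one]
    rw [this, map_smul, coeff_smul, smul_eq_mul]
  have hmem : emb u' ∈ DD ι M := by
    rw [mem_DD, hbdeg]
    exact Nat.le_max_right _ _
  rw [h1, ← Finset.add_sum_erase _ _ hmem, DW.S0.EE_symm_b, coeff_monomial, if_pos rfl, mul_one,
    add_sub_cancel_left]
  refine Finset.dvd_sum fun v hv => ?_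
  rw [Finset.mem_erase] at hv
  rcases lt_trichotomy v.degree j with h | h | h
  · have h2 := Setup.EE_symm_mem D t (monomial_mem_VV (le_refl v.degree) (1 : S.Q N))
    rw [h2 (emb u') (by rw [hbdeg]; exact h), mul_zero]
    exact dvd_zero _
  · rw [EE_symm_top D t hDg u' v h hv.1, mul_zero]
    exact dvd_zero _
  · exact Dvd.dvd.mul_right (hZ v h) _

variable (S)

/-- leading terms in the box -/
def Bx (φ : (ι →₀ ℕ) → K) (F : MvPowerSeries ι R) : Prop :=
  ∀ w : ι →₀ ℕ, (∀ i, w i < p * d) → ∃ z : R,
    MvPowerSeries.coeff w F = S.lam ^ w.degree * z ∧ S.res z = φ w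

theorem Bx_mul {φ ψ : (ι →₀ ℕ) → K} {F G : MvPowerSeries ι R} (hF : Bx S φ F) (hG : Bx S ψ G) :
    Bx S (fun w => ∑ x ∈ Finset.HasAntidiagonal.antidiagonal w, φ x.1 * ψ x.2) (F * G) := by
  intro w hw
  have hdeg : ∀ x ∈ Finset.HasAntidiagonal.antidiagonal w, x.1.degree + x.2.degree = w.degree := by
    intro x hx
    rw [Finset.HasAntidiagonal.mem_antidiagonal] at hx
    rw [← map_add, hx]
  have h1 : ∀ x : (ι →₀ ℕ) × (ι →₀ ℕ), ∃ z : R, x ∈ Finset.HasAntidiagonal.antidiagonal w →
      MvPowerSeries.coeff x.1 F * MvPowerSeries.coeff x.2 G = S.lam ^ w.degree * z ∧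
      S.res z = φ x.1 * ψ x.2 := by
    intro x
    by_cases hx : x ∈ Finset.HasAntidiagonal.antidiagonal w
    · have hxd := hdeg x hx
      have hxw := hx
      rw [Finset.HasAntidiagonal.mem_antidiagonal] at hxw
      have hle : ∀ i, x.1 i + x.2 i = w i := by
        intro i
        rw [← hxw, Finsupp.add_apply]
      obtain ⟨z1, h1, h2⟩ := hF x.1 (fun i => by have := hle i; have := hw i; omega)
      obtain ⟨z2, h3, h4⟩ := hG x.2 (fun i => by have := hle i; have := hw i; omega)
      refine ⟨z1 * z2, fun _ => ⟨?_, ?_⟩⟩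
      · rw [h1, h3, ← hxd, pow_add]
        ring
      · rw [map_mul, h2, h4]
    · exact ⟨0, fun h => absurd h hx⟩
  choose z hz using h1
  refine ⟨∑ x ∈ Finset.HasAntidiagonal.antidiagonal w, z x, ?_, ?_⟩
  · rw [MvPowerSeries.coeff_mul, Finset.mul_sum]
    exact Finset.sum_congr rfl fun x hx => (hz x hx).1
  · rw [map_sum]
    exact Finset.sum_congr rfl fun x hx => (hz x hx).2

theorem Bx_congr {φ ψ : (ι →₀ ℕ) → K} {F : MvPowerSeries ι R} (hF : Bx S φ F)
    (h : ∀ w, φ w = ψ w) : Bx S ψ F := by
  intro w hw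
  rw [← h]
  exact hF w hw

/-- the coefficients of the exponential functions -/
noncomputable def gx (d : ℕ) (a : ι → K) (i : ι) (n : ℕ) : K :=
  if d ∣ n then ((n / d).factorial : K)⁻¹ * a i ^ (n / d) else 0

theorem Bx_one (a : ι → K) (hd : 0 < d) : Bx S (phi (gx d a) ∅) (1 : MvPowerSeries ι R) := by
  intro w _
  rw [MvPowerSeries.coeff_one]
  by_cases hw : w = 0
  · refine ⟨1, ?_, ?_⟩
    · rw [if_pos hw, hw, map_zero, pow_zero, mul_one]
    · rw [phi, if_pos, Finset.prod_empty, map_one]
      intro i _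
      rw [hw, Finsupp.zero_apply]
  · refine ⟨0, ?_, ?_⟩
    · rw [if_neg hw, mul_zero]
    · rw [phi, if_neg, map_zero]
      intro h
      apply hw
      ext i
      exact h i (Finset.notMem_empty i)

theorem Bx_low (a : ι → K) (hd : 0 < d) (hpd : 2 * d + 3 < p) (s : ι →₀ ℕ) (hs0 : s ≠ 0)
    (hs : s.degree < d) (c : R) : Bx S (phi (gx d a) ∅) (S.Fs s c) := by
  intro w _
  by_cases hw0 : w = 0
  · subst hw0
    refine ⟨1, ?_, ?_⟩
    · have h1 := S.coeff_Fs s hs0 c 0
      rw [S.th_zero, zero_smul] at h1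
      rw [h1, map_zero]
      simp
    · rw [phi, if_pos, Finset.prod_empty, map_one]
      intro i _
      rw [Finsupp.zero_apply]
  · have hphi : phi (gx d a) ∅ w = 0 := by
      rw [phi, if_neg]
      intro h
      apply hw0
      ext i
      exact h i (Finset.notMem_empty i)
    rw [hphi]
    by_cases h : ∃ j : ℕ, j • s = w
    · obtain ⟨j, rfl⟩ := h
      have hj : 0 < j := by
        rcases Nat.eq_zero_or_pos j with rfl | hj
        · exact absurd (zero_smul _ _) hw0
        · exact hj
      have hdeg : (j • s).degree = j * s.degree := by rw [map_nsmul, smul_eq_mul]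
      have hle : j * s.degree + 1 ≤ d * ce p j := by
        unfold ce
        have h1 : 2 * j / p * p ≤ 2 * j := Nat.div_mul_le_self _ _
        have h2 : 2 * j / p ≤ j := by
          refine Nat.div_le_of_le_mul ?_
          nlinarith
        set k := 2 * j / p with hk
        have h3 : j * s.degree + j ≤ d * j := by
          have : s.degree + 1 ≤ d := hs
          nlinarith
        have h4 : d * (j - k) + d * k = d * j := by
          rw [← mul_add, Nat.sub_add_cancel h2]
        have h5 : d * k + 1 ≤ j := by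
          rcases Nat.eq_zero_or_pos k with h0 | h0
          · rw [h0, mul_zero]; omega
          · nlinarith
        omega
      obtain ⟨q, hq⟩ := (pow_dvd_pow S.lam hle).trans (S.th_dvd j)
      refine ⟨S.lam * (q * c ^ j), ?_, ?_⟩
      · rw [S.coeff_Fs s hs0, hq, hdeg, pow_succ]
        ring
      · rw [map_mul, S.res_lam, zero_mul]
    · push Not at h
      refine ⟨0, ?_, map_zero _⟩
      rw [S.coeff_Fs_ne s c w h, mul_zero]

theorem Bx_top [CharP K p] (a : ι → K) (hd : 0 < d) (i : ι) (c : R) (hc : S.res c = a i) :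
    Bx S (phi (gx d a) {i}) (S.Fs (Finsupp.single i d) c) := by
  have hs0 : Finsupp.single i d ≠ (0 : ι →₀ ℕ) := by
    rw [Ne, Finsupp.single_eq_zero]
    omega
  intro w hw
  by_cases h : ∃ j : ℕ, j • (Finsupp.single i d : ι →₀ ℕ) = w
  · obtain ⟨j, rfl⟩ := h
    have hsm : j • (Finsupp.single i d : ι →₀ ℕ) = Finsupp.single i (j * d) := by
      rw [Finsupp.smul_single, smul_eq_mul]
    have hdeg : (j • (Finsupp.single i d : ι →₀ ℕ)).degree = d * j := by
      rw [hsm, Finsupp.degree_single, mul_comm]
    have hj : j < p := by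
      have := hw i
      rw [hsm, Finsupp.single_eq_same] at this
      exact Nat.lt_of_mul_lt_mul_right this
    have h1 := S.th_small j hj
    have hfac := fac_ne (K := K) hp.out hj
    have hR : IsUnit ((j.factorial : ℕ) : R) := by
      refine S.isUnit_nat ?_
      rw [hp.out.dvd_factorial]
      omega
    obtain ⟨u, hu⟩ := hR
    have h2 : S.th j = S.lam ^ (d * j) * (↑u⁻¹ : R) := by
      have h3 : (u : R) * S.th j = S.lam ^ (d * j) := by
        rw [hu, h1, Setup.pi, pow_mul]
      rw [← h3]
      have h4 : (u : R) * (↑u⁻¹ : R) = 1 := Units.mul_inv u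
      linear_combination (-S.th j) * h4
    refine ⟨(↑u⁻¹ : R) * c ^ j, ?_, ?_⟩
    · rw [S.coeff_Fs _ hs0, h2, hdeg]
      ring
    · rw [hsm, phi, if_pos, Finset.prod_singleton, Finsupp.single_eq_same, gx,
        if_pos (dvd_mul_left d j), Nat.mul_div_cancel _ hd, map_mul, map_pow, hc]
      · congr 1
        apply mul_left_cancel₀ hfac
        rw [mul_inv_cancel₀ hfac, ← map_natCast S.res, ← hu, ← map_mul, Units.mul_inv, map_one]
      · intro j' hj'
        rw [Finset.mem_singleton] at hj'
        exact Finsupp.single_eq_of_ne hj'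
  · push Not at h
    refine ⟨0, ?_, ?_⟩
    · rw [S.coeff_Fs_ne _ c w h, mul_zero]
    · rw [map_zero, phi]
      symm
      split_ifs with h1
      · rw [Finset.prod_singleton, gx, if_neg]
        rintro ⟨j, hj⟩
        apply h j
        rw [Finsupp.smul_single, smul_eq_mul, mul_comm, ← hj]
        ext l
        by_cases hl : l = i
        · subst hl
          rw [Finsupp.single_eq_same]
        · rw [Finsupp.single_eq_of_ne hl, h1 l (by rwa [Finset.mem_singleton])]
      · rfl

/-- the whole product -/
theorem Bx_FF [CharP K p] (hd : 0 < d) (hpd : 2 * d + 3 < p) (supp : Finset (ι →₀ ℕ))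
    (c : (ι →₀ ℕ) → R) (h0 : 0 ∉ supp) (hs : ∀ s ∈ supp, s.degree ≤ d)
    (htop : ∀ s ∈ supp, s.degree = d → ∃ i, s = Finsupp.single i d)
    (hall : ∀ i, Finsupp.single i d ∈ supp) :
    Bx S (fun w => ∏ i, gx d (fun i => S.res (c (Finsupp.single i d))) i (w i))
      (S.FF supp c) := by
  set a : ι → K := fun i => S.res (c (Finsupp.single i d)) with ha
  rw [Setup.FF, ← Finset.prod_filter_mul_prod_filter_not supp (fun s => s.degree = d)]
  have hinj : Function.Injective (fun i : ι => (Finsupp.single i d : ι →₀ ℕ)) := by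
    intro i j hij
    exact (Finsupp.single_left_inj (by omega)).1 hij
  have h1 : supp.filter (fun s => s.degree = d) =
      Finset.univ.image (fun i : ι => (Finsupp.single i d : ι →₀ ℕ)) := by
    ext s
    rw [Finset.mem_filter, Finset.mem_image]
    constructor
    · rintro ⟨h2, h3⟩
      obtain ⟨i, hi⟩ := htop s h2 h3
      exact ⟨i, Finset.mem_univ i, hi.symm⟩
    · rintro ⟨i, _, rfl⟩
      exact ⟨hall i, Finsupp.degree_single _ _⟩
  have htopA : ∀ A : Finset ι, Bx S (phi (gx d a) A)
      (∏ i ∈ A, S.Fs (Finsupp.single i d) (c (Finsupp.single i d))) := by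
    intro A
    induction A using Finset.induction_on with
    | empty =>
      rw [Finset.prod_empty]
      exact Bx_one S a hd
    | insert i A hi ih =>
      rw [Finset.prod_insert hi]
      exact Bx_congr S (Bx_mul S (Bx_top S a hd i _ rfl) ih) (fun w => conv_sep _ A i hi w)
  have hlowA : ∀ A : Finset (ι →₀ ℕ), (∀ s ∈ A, s ≠ 0 ∧ s.degree < d) →
      ∀ (B : Finset ι) (F : MvPowerSeries ι R), Bx S (phi (gx d a) B) F →
      Bx S (phi (gx d a) B) (F * ∏ s ∈ A, S.Fs s (c s)) := by
    intro A
    induction A using Finset.induction_on with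
    | empty =>
      intro _ B F hF
      rw [Finset.prod_empty, mul_one]
      exact hF
    | insert s A hsA ih =>
      intro hA B F hF
      rw [Finset.prod_insert hsA, ← mul_assoc]
      refine ih (fun s hs => hA s (Finset.mem_insert_of_mem hs)) B _ ?_
      have h2 := hA s (Finset.mem_insert_self s A)
      refine Bx_congr S (Bx_mul S hF (Bx_low S a hd hpd s h2.1 h2.2 (c s))) fun w => ?_
      rw [Finset.sum_eq_single (w, 0)]
      · have h3 : phi (gx d a) ∅ (0 : ι →₀ ℕ) = 1 := by
          rw [phi, if_pos, Finset.prod_empty]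
          intro i _
          rfl
        rw [h3, mul_one]
      · intro x hx hne
        rw [Finset.HasAntidiagonal.mem_antidiagonal] at hx
        have h3 : phi (gx d a) ∅ x.2 = 0 := by
          rw [phi, if_neg]
          intro h4
          apply hne
          have h5 : x.2 = 0 := by
            ext i
            exact h4 i (Finset.notMem_empty i)
          refine Prod.ext ?_ h5
          rw [← hx, h5, add_zero]
        rw [h3, mul_zero]
      · intro h3
        exfalso
        apply h3
        rw [Finset.HasAntidiagonal.mem_antidiagonal, add_zero]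
  refine Bx_congr S (hlowA _ ?_ Finset.univ _ ?_) (fun w => phi_univ _ w)
  · intro s hs'
    rw [Finset.mem_filter] at hs'
    exact ⟨fun h => h0 (h ▸ hs'.1), lt_of_le_of_ne (hs s hs'.1) hs'.2⟩
  · rw [h1, Finset.prod_image (fun i _ j _ h => hinj h)]
    exact htopA Finset.univ

end S0

end Pool.Agent.H856.DV
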