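import Pool.Agent.H856.DW.Spec

set_option autoImplicit false
set_option linter.unusedSectionVars false
set_option linter.unusedVariables false

/-!
# The leading term of the characteristic polynomial at the slope `c`
-/

namespace Pool.Agent.H856.DV

open Pool.Agent.H425 Pool.Agent.H856.DW Polynomial

variable {p d : ℕ} [hp : Fact p.Prime] {K R : Type} [Field K] [CommRing R] [IsDomain R]
  (S : Setup p d K R) {I : Type} [Fintype I] [DecidableEq I]

/-- the scaled matrices -/
def scl (e : ℕ) (lev : I → ℕ) (z : ℕ → Matrix I I R) (t : ℕ) : Matrix I I R :=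
  fun i j => S.lam ^ ((p - 1) * min (lev i) e) * z t i j

/-- the diagonal after scaling -/
noncomputable def dl (c e : ℕ) (lev : I → ℕ) (t : ℕ) (i : I) : R[X] :=
  (-1) ^ c * C (S.lam ^ ((p - 1) * (e - min (lev i) e))) * (if t = 0 then X else 1)

theorem scaled_det (m c e : ℕ) (he : e = c * d) (lev : I → ℕ) (z : ℕ → Matrix I I R) :
    (prodn (scl S e lev z) (m + 1)).charpoly.comp (C (((p : R) ^ c) ^ (m + 1)) * X) =
      C (S.lam ^ (∑ x : Fin (m + 1) × I, (p - 1) * min (lev x.2) e)) *
        (cyc m (dl S c e lev) (fun t => (z t).map C)).det := by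
  rw [comp_det]
  have h1 := cyc_det m (fun t => C ((p : R) ^ c) * (if t = 0 then X else 1))
    (fun t => (scl S e lev z t).map (C : R →+* R[X]))
  have h2 : (∏ t ∈ Finset.range (m + 1), C ((p : R) ^ c) * (if t = 0 then X else 1)) =
      C (((p : R) ^ c) ^ (m + 1)) * X := by
    rw [Finset.prod_mul_distrib, Finset.prod_const, Finset.card_range, ← C_pow]
    congr 1
    rw [Finset.prod_range_succ', Finset.prod_eq_one]
    · rw [if_pos rfl, one_mul]
    · intro t _
      rw [if_neg (Nat.succ_ne_zero t)]
  have h3 : prodn (fun t => (scl S e lev z t).map (C : R →+* R[X])) (m + 1) =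
      (prodn (scl S e lev z) (m + 1)).map C := prodn_map C _ _
  rw [h2, h3] at h1
  rw [← h1]
  have h4 : cyc m (fun t (_ : I) => C ((p : R) ^ c) * (if t = 0 then X else 1))
      (fun t => (scl S e lev z t).map (C : R →+* R[X])) =
      Matrix.of fun x y => C (S.lam ^ ((p - 1) * min (lev x.2) e)) *
        (cyc m (dl S c e lev) (fun t => (z t).map C)) x y := by
    ext1 x y
    rw [Matrix.of_apply, cyc, cyc, mul_sub]
    congr 1
    · by_cases hxy : x = y
      swap
      · rw [if_neg hxy, if_neg hxy, mul_zero]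
      rw [if_pos hxy, if_pos hxy, dl]
      generalize (if (x.1 : ℕ) = 0 then (X : R[X]) else 1) = w
      have h5 : (p : R) ^ c = S.lam ^ ((p - 1) * min (lev x.2) e) *
          ((-1) ^ c * S.lam ^ ((p - 1) * (e - min (lev x.2) e))) := by
        have h6 : S.lam ^ ((p - 1) * min (lev x.2) e) *
          ((-1) ^ c * S.lam ^ ((p - 1) * (e - min (lev x.2) e))) =
          (-1) ^ c * (S.lam ^ ((p - 1) * min (lev x.2) e) *
            S.lam ^ ((p - 1) * (e - min (lev x.2) e))) := by ring
        rw [h6, ← pow_add, ← mul_add, Nat.add_sub_cancel' (min_le_right _ _), he]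
        have h7 : (p - 1) * (c * d) = d * (p - 1) * c := by ring
        rw [h7, pow_mul S.lam, S.lam_pow, ← mul_pow]
        congr 1
        ring
      have h8 : (C ((-1 : R) ^ c) : R[X]) = (-1) ^ c := by rw [C_pow, C_neg, C_1]
      conv_lhs => rw [h5]
      rw [C_mul, C_mul, h8]
      ring
    · rw [mul_ite, mul_zero]
      congr 1
      rw [Matrix.map_apply, Matrix.map_apply, scl, C_mul]
  rw [h4, Matrix.det_mul_column, ← map_prod, Finset.prod_pow_eq_pow_sum]

theorem map_cyc_dl (m c e : ℕ) (lev : I → ℕ) (hp1 : 1 < p) (z : ℕ → Matrix I I R)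
    (H : ℕ → Matrix I I K) (hz : ∀ t i j, S.res (z t i j) = H t i j) :
    ((cyc m (dl S c e lev) (fun t => (z t).map C)).det).map S.res =
      (cyc m (fun t i => (if lev i < e then 0 else (-1) ^ c * (if t = 0 then X else 1) : K[X]))
        (fun t => (H t).map C)).det := by
  rw [← coe_mapRingHom, RingHom.map_det]
  congr 1
  ext1 x y
  rw [RingHom.mapMatrix_apply, Matrix.map_apply, cyc, cyc, map_sub, apply_ite (mapRingHom S.res),
    apply_ite (mapRingHom S.res), map_zero]
  congr 1
  · congr 1
    rw [dl, coe_mapRingHom, Polynomial.map_mul, Polynomial.map_mul, Polynomial.map_pow,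
      Polynomial.map_neg, Polynomial.map_one, map_C, map_pow, S.res_lam]
    by_cases h : lev x.2 < e
    · rw [if_pos h, zero_pow]
      · simp
      · have h1 : min (lev x.2) e = lev x.2 := min_eq_left h.le
        rw [h1]
        exact Nat.mul_ne_zero (by omega) (by omega)
    · rw [if_neg h, min_eq_right (not_lt.1 h), Nat.sub_self, mul_zero, pow_zero, C_1]
      split_ifs
      · rw [map_X]; ring
      · rw [Polynomial.map_one]; ring
  · congr 1
    rw [Matrix.map_apply, Matrix.map_apply, coe_mapRingHom, map_C, hz]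

theorem prodn_smul {A : Type} [CommRing A] (a : A) (B : ℕ → Matrix I I A) (m : ℕ) :
    prodn (fun t => a • B t) m = a ^ m • prodn B m := by
  induction m with
  | zero => rw [pow_zero, one_smul]; rfl
  | succ m ih =>
    rw [prodn, prodn, ih, Matrix.mul_smul, Matrix.smul_mul, smul_smul, pow_succ]

theorem block_mid (m : ℕ) (s : K) (hs : s * s = 1) (B : ℕ → Matrix I I K) :
    (((C s) ^ (m + 1) * X : K[X]) • (1 : Matrix I I K[X]) -
      prodn (fun t => (B t).map C) (m + 1)).det =
      C ((s ^ (m + 1)) ^ Fintype.card I) * (prodn (fun t => s • B t) (m + 1)).charpoly := by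
  have h1 : prodn (fun t => (B t).map (C : K →+* K[X])) (m + 1) = (prodn B (m + 1)).map C :=
    prodn_map C B (m + 1)
  have hs2 : s ^ (m + 1) * s ^ (m + 1) = 1 := by rw [← mul_pow, hs, one_pow]
  have h2 : ((C s) ^ (m + 1) * X : K[X]) • (1 : Matrix I I K[X]) - (prodn B (m + 1)).map C =
      (C (s ^ (m + 1)) : K[X]) • (prodn (fun t => s • B t) (m + 1)).charmatrix := by
    rw [prodn_smul]
    ext1 i j
    rw [Matrix.sub_apply, Matrix.smul_apply, Matrix.smul_apply, Matrix.map_apply,
      Matrix.charmatrix_apply, Matrix.smul_apply, smul_eq_mul, smul_eq_mul, smul_eq_mul,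
      Matrix.one_apply, Matrix.diagonal_apply, mul_sub, ← C_mul, ← mul_assoc, hs2, one_mul, C_pow]
    congr 1
    simp only [mul_ite, mul_one, mul_zero]
  rw [h1, h2, Matrix.det_smul, Matrix.charpoly, ← C_pow]

/-- **the leading term at the slope `c`** -/
theorem spec (m c e : ℕ) (he : e = c * d) (lev : I → ℕ) (z : ℕ → Matrix I I R)
    (H : ℕ → Matrix I I K) (hz : ∀ t i j, S.res (z t i j) = H t i j)
    (hH : ∀ t i j, lev j < lev i → H t i j = 0) (hhigh : ∀ t i j, e < lev i → H t i j = 0)
    (hdet : ∀ k, k < e → ∀ t,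
      ((H t).submatrix (Subtype.val : {i // lev i = k} → I) Subtype.val).det ≠ 0) :
    ∃ (G : R[X]) (u : K) (r : ℕ), u ≠ 0 ∧
      (prodn (scl S e lev z) (m + 1)).charpoly.comp (C (((p : R) ^ c) ^ (m + 1)) * X) =
        C (S.lam ^ (∑ x : Fin (m + 1) × I, (p - 1) * min (lev x.2) e)) * G ∧
      G.map S.res = C u * X ^ r *
        (prodn (fun t => ((-1 : K) ^ c) •
          (H t).submatrix (Subtype.val : {i // lev i = e} → I) Subtype.val) (m + 1)).charpoly := by
  have hp1 := hp.out.one_lt
  have h1 := map_cyc_dl S m c e lev hp1 z H hz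
  have h2 := cyc_levels m lev
    (fun t k => (if k < e then 0 else (-1) ^ c * (if t = 0 then X else 1) : K[X]))
    (fun t => (H t).map C) (by
      intro t i j hij
      rw [Matrix.map_apply, hH t i j hij, C_0])
  rw [h2] at h1
  set P := (prodn (fun t => ((-1 : K) ^ c) •
          (H t).submatrix (Subtype.val : {i // lev i = e} → I) Subtype.val) (m + 1)).charpoly with hP
  have h3 : ∀ k, ∃ (u : K) (r : ℕ), u ≠ 0 ∧
      ((∏ t ∈ Finset.range (m + 1),
        (if k < e then 0 else (-1) ^ c * (if t = 0 then X else 1) : K[X])) •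
        (1 : Matrix {i // lev i = k} {i // lev i = k} K[X]) -
        prodn (fun t => ((H t).map C).submatrix Subtype.val Subtype.val) (m + 1)).det =
      C u * X ^ r * (if k = e then P else 1) := by
    intro k
    have hpr : ¬ k < e → (∏ t ∈ Finset.range (m + 1),
        (if k < e then 0 else (-1) ^ c * (if t = 0 then X else 1) : K[X])) =
        (C ((-1) ^ c)) ^ (m + 1) * X := by
      intro hk
      have e1 : ∀ t ∈ Finset.range (m + 1),
          (if k < e then 0 else (-1) ^ c * (if t = 0 then X else 1) : K[X]) =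
          (C ((-1) ^ c)) * (if t = 0 then X else 1) := by
        intro t _
        rw [if_neg hk, C_pow, C_neg, C_1]
      rw [Finset.prod_congr rfl e1, Finset.prod_mul_distrib, Finset.prod_const, Finset.card_range]
      congr 1
      rw [Finset.prod_range_succ', Finset.prod_eq_one]
      · rw [if_pos rfl, one_mul]
      · intro t _
        rw [if_neg (Nat.succ_ne_zero t)]
    have hsub : (fun t => ((H t).map (C : K →+* K[X])).submatrix
        (Subtype.val : {i // lev i = k} → I) (Subtype.val : {i // lev i = k} → I)) =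
        fun t => ((H t).submatrix Subtype.val Subtype.val).map C := rfl
    rw [hsub]
    rcases lt_trichotomy k e with h | h | h
    · obtain ⟨u, hu, hu2⟩ := block_low m
        (fun t => (H t).submatrix (Subtype.val : {i // lev i = k} → I) Subtype.val) (hdet k h)
      refine ⟨u, 0, hu, ?_⟩
      have hz0 : (∏ t ∈ Finset.range (m + 1),
          (if k < e then 0 else (-1) ^ c * (if t = 0 then X else 1) : K[X])) = 0 := by
        rw [Finset.prod_range_succ, if_pos h, mul_zero]
      rw [hz0, hu2, if_neg (by omega), pow_zero, mul_one, mul_one]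
    · subst h
      refine ⟨(((-1) ^ c) ^ (m + 1)) ^ Fintype.card {i // lev i = k}, 0,
        pow_ne_zero _ (pow_ne_zero _ (pow_ne_zero _ (neg_ne_zero.2 one_ne_zero))), ?_⟩
      rw [hpr (lt_irrefl _), block_mid m ((-1) ^ c) (by rw [← mul_pow]; simp), if_pos rfl,
        pow_zero, mul_one]
    · refine ⟨(((-1) ^ c) ^ (m + 1)) ^ Fintype.card {i // lev i = k},
        Fintype.card {i // lev i = k},
        pow_ne_zero _ (pow_ne_zero _ (pow_ne_zero _ (neg_ne_zero.2 one_ne_zero))), ?_⟩
      have hz1 : prodn (fun t => ((H t).submatrix (Subtype.val : {i // lev i = k} → I)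
          (Subtype.val : {i // lev i = k} → I)).map (C : K →+* K[X])) (m + 1) = 0 := by
        refine prodn_zero_mat _ _ fun t => ?_
        ext1 i j
        rw [Matrix.map_apply, Matrix.submatrix_apply, hhigh t i j (by rw [i.2]; exact h), C_0,
          Matrix.zero_apply]
      rw [hpr (by omega), hz1, sub_zero, Matrix.det_smul, Matrix.det_one, mul_one,
        if_neg (by omega), mul_one, mul_pow, ← C_pow, ← C_pow]
  choose u r hu hF using h3
  refine ⟨_, ∏ k ∈ Finset.univ.image lev, u k, ∑ k ∈ Finset.univ.image lev, r k,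
    Finset.prod_ne_zero_iff.2 fun k _ => hu k, scaled_det S m c e he lev z, ?_⟩
  rw [h1, Finset.prod_congr rfl (fun k _ => hF k), Finset.prod_mul_distrib, Finset.prod_mul_distrib,
    ← map_prod, Finset.prod_pow_eq_pow_sum, Finset.prod_ite_eq']
  congr 1
  split_ifs with h
  · rfl
  · have : IsEmpty {i // lev i = e} := ⟨fun i => h (Finset.mem_image.2 ⟨i.1, Finset.mem_univ _, i.2⟩)⟩
    rw [hP, Matrix.charpoly, Matrix.det_isEmpty]

/-- products of diagonal matrices -/
theorem prodn_diagonal {A : Type} [CommRing A] (a : ℕ → I → A) (m : ℕ) :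
    prodn (fun t => Matrix.diagonal (a t)) m =
      Matrix.diagonal (fun i => ∏ t ∈ Finset.range m, a t i) := by
  induction m with
  | zero =>
    rw [prodn]
    simp
  | succ m ih =>
    rw [prodn, ih, Matrix.diagonal_mul_diagonal]
    congr 1
    funext i
    rw [Finset.prod_range_succ, mul_comm]

end Pool.Agent.H856.DV
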