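import Pool.Agent.H856.DV.Loc
import Pool.Agent.H856.DW.Roots
import Pool.Agent.H856.DW.Count

set_option autoImplicit false
set_option linter.unusedSectionVars false
set_option linter.unusedVariables false

/-!
# From the truncated rings to the cyclotomic field
-/

namespace Pool.Agent.H856.DV

open Pool.Agent.H425 Pool.Agent.H856.DW Polynomial

namespace S0

variable {p d : ℕ} [hp : Fact p.Prime] {K R : Type} [Field K] [CommRing R] [IsDomain R]
  {F : Type} [Field F] [Algebra ℚ F] [IsCyclotomicExtension {p} ℚ F]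
  {ι : Type} [Fintype ι] [DecidableEq ι]

/-- the polynomial of the residues of the eigenvalues of slope `c` -/
noncomputable def RP (p d c : ℕ) (f : MvPolynomial ι K) (m e : ℕ) : K[X] :=
  ∏ i : {i : ι → Fin e // lv ι (c * d) i = c * d}, (X - C (rs p d c f m i.1))

/-- **the transfer to the cyclotomic field** -/
theorem trans (S : Setup p d K R) [CharP K p] [IsAlgClosed K] (hd : 2 ≤ d) (c : ℕ) (hc : 1 ≤ c)
    (hcard : Fintype.card ι = 2 * c) (hpd : 2 * (c * d) + 3 < p)
    (hdp : d ∣ p - 1) (f : MvPolynomial ι K) (hL : LF d f) (m : ℕ)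
    (hfm : ∀ s, MvPolynomial.coeff s f ^ (p ^ (m + 1)) = MvPolynomial.coeff s f)
    (ζ : F) (hζ : IsPrimitiveRoot ζ p) (a : ℕ → F) (ha0 : a 0 = 1)
    (ha : ∀ r, ((r + 1 : ℕ) : F) * a (r + 1) =
      -∑ j ∈ Finset.range (r + 1), expSum p f ((m + 1) * (j + 1)) ζ * a (r - j)) :
    (∀ r, (d - 1) ^ (2 * c) < r → a r = 0) ∧
    Tk a ((d - 1) ^ (2 * c)) (((p : F) ^ c) ^ (m + 1))
      ((RP p d c f m (d - 1)).rootMultiplicity 1) ≠ 0 := by
  have hdc : d ≤ c * d := Nat.le_mul_of_pos_left d hc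
  have hp5 : 5 ≤ p := by omega
  have hb : ∀ N, 1 ≤ N → S.BD N f (d - 1) emb := fun N hN =>
    BD_diag S hp5 hd (by omega) f hL.hf hL.hdiag hL.hne N hN
  have hch : CharZero F := charZero_of_injective_algebraMap (algebraMap ℚ F).injective
  have hcardI : Fintype.card (ι → Fin (d - 1)) = (d - 1) ^ (2 * c) := by
    rw [Fintype.card_fun, Fintype.card_fin, hcard]
  have hn1 : 1 ≤ Fintype.card ι := by omega
  have hcom : ∀ N, 1 ≤ N → ∀ D : S.BD N f (d - 1) emb, ∀ r, ∃ P : ℤ[X],
      aeval ζ P = (r.factorial : F) * a r ∧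
      aeval (S.zet N) P = (r.factorial : S.Q N) * (cs (prodn (Setup.Bt D) (m + 1))).coeff r := by
    intro N hN D r
    refine exists_common (fun j => Epoly p f ((m + 1) * j)) (-1) ζ (S.zet N) a
      (fun r => (cs (prodn (Setup.Bt D) (m + 1))).coeff r) ha0 (cs_zero _) ?_ ?_ r
    · intro r
      simp only [aeval_Epoly]
      rw [ha r]
      push_cast
      ring
    · intro r
      have h1 := Setup.rec_cs D hn1 (m + 1) (by omega) hfm r
      rw [h1, hcard]
      have h2 : ((-1 : ℤ)) ^ (2 * c - 1) = -1 := by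
        rw [Odd.neg_one_pow]
        exact ⟨c - 1, by omega⟩
      rw [h2]
  constructor
  · intro r hr
    by_contra hcr
    have hfr : (r.factorial : F) * a r ≠ 0 :=
      mul_ne_zero (Nat.cast_ne_zero.2 (Nat.factorial_ne_zero r)) hcr
    have hval : ∀ P : ℤ[X], aeval ζ P = (r.factorial : F) * a r → ∃ b : ℕ,
        padicValRat p (Algebra.norm ℚ ((r.factorial : F) * a r)) = b ∧
        ∃ U W : ℤ[X], P = (X - 1) ^ b * U + (∑ i ∈ Finset.range p, X ^ i) * W ∧
        ¬ (p : ℤ) ∣ U.eval 1 := by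
      intro P hP
      obtain ⟨b, hb, U, W, h1, h2⟩ := factor p (by omega) hζ
        (padicValRat p (Algebra.norm ℚ (aeval ζ P))).toNat P (by rw [hP]; exact hfr)
        (Int.self_le_toNat _)
      rw [hP] at hb
      exact ⟨b, hb, U, W, h1, h2⟩
    obtain ⟨P1, hP1, -⟩ := hcom 1 le_rfl (hb 1 le_rfl) r
    obtain ⟨v, hv, -⟩ := hval P1 hP1
    have hN1 : 1 ≤ d * v + 1 := by omega
    set D := hb (d * v + 1) hN1 with hD
    obtain ⟨P, hP, hP2⟩ := hcom (d * v + 1) hN1 D r
    obtain ⟨b, hb', U, W, hUW, hU⟩ := hval P hP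
    have hav : b = v := by
      rw [hv] at hb'
      exact_mod_cast hb'.symm
    obtain ⟨u, hu, hu2⟩ := S.eval_zet hp5 (by omega) (d * v + 1) hN1 P U W b hUW hU
    have hnt : Nontrivial (S.Q (d * v + 1)) := DW.S0.nontrivial_Q hN1
    rw [hP2, cs_high _ r (by rw [hcardI]; exact hr), mul_zero, hav] at hu2
    exact S.ord_ne_zero hu (Nat.lt_succ_self _) hu2.symm
  · set P0 := RP p d c f m (d - 1) with hP0
    have hP0ne : P0 ≠ 0 := Finset.prod_ne_zero_iff.2 fun i _ => X_sub_C_ne_zero _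
    set μ := P0.rootMultiplicity 1 with hμ
    set n := (d - 1) ^ (2 * c) with hn
    set E0 := Ex ι p (c * d) (d - 1) m with hE0
    intro hzero
    obtain ⟨b, v, hv1, hv2⟩ := DW.S0.exists_pow_mul S n.factorial (Nat.factorial_ne_zero n)
    set N := b + E0 + 1 with hN
    have hN1 : 1 ≤ N := by omega
    set D := hb N hN1 with hD
    have hnt : Nontrivial (S.Q N) := DW.S0.nontrivial_Q hN1
    obtain ⟨M, G, u, r, hu, h1, h2, h3⟩ := loc D hL hn1 hdp c hc hpd m
    choose P hP1 hP2 using hcom N hN1 D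
    have hfac : ∀ r ∈ Finset.range (n + 1), n.factorial = n.descFactorial (n - r) * r.factorial := by
      intro r hr
      rw [Finset.mem_range] at hr
      have := Nat.factorial_mul_descFactorial (n := n) (k := n - r) (by omega)
      rw [← this, mul_comm]
      congr 2
      omega
    let Q : ℤ[X] := ∑ r ∈ Finset.range (n + 1), C ((n.descFactorial (n - r) : ℕ) : ℤ) * P r *
      C ((((p : ℤ) ^ c) ^ (m + 1)) ^ (n - r)) * C (((n - r).choose μ : ℕ) : ℤ)
    have hQ1 : aeval ζ Q = (n.factorial : F) * Tk a n (((p : F) ^ c) ^ (m + 1)) μ := by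
      rw [map_sum, Tk, Finset.mul_sum]
      refine Finset.sum_congr rfl fun r hr => ?_
      rw [map_mul, map_mul, map_mul, aeval_C, aeval_C, aeval_C, hP1, hfac r hr]
      simp only [eq_intCast]
      push_cast
      ring
    have hQ2 : aeval (S.zet N) Q = (n.factorial : S.Q N) *
        Tk (fun r => (cs (prodn (Setup.Bt D) (m + 1))).coeff r) n
          (((p : S.Q N) ^ c) ^ (m + 1)) μ := by
      rw [map_sum, Tk, Finset.mul_sum]
      refine Finset.sum_congr rfl fun r hr => ?_
      rw [map_mul, map_mul, map_mul, aeval_C, aeval_C, aeval_C, hP2, hfac r hr]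
      simp only [eq_intCast]
      push_cast
      ring
    rw [hzero, mul_zero] at hQ1
    have hQ3 := zet_of_zeta hζ (S.zet N) (S.zet_cyclo hp5 (by omega) N) Q hQ1
    rw [hQ2, ← taylor_PP, ← hcardI, ← charpoly_PP, ← h1] at hQ3
    have h4 : (M.map (S.rd N)).charpoly = M.charpoly.map (S.rd N) := Matrix.charpoly_map M (S.rd N)
    have h5 : ((M.charpoly.map (S.rd N)).comp (C (((p : S.Q N) ^ c) ^ (m + 1)) * X)).comp (X + C 1) =
        ((M.charpoly.comp (C (((p : R) ^ c) ^ (m + 1)) * X)).comp (X + C 1)).map (S.rd N) := by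
      have e1 : S.rd N (((p : R) ^ c) ^ (m + 1)) = ((p : S.Q N) ^ c) ^ (m + 1) := by
        rw [map_pow, map_pow, map_natCast]
      have e2 : S.rd N (1 : R) = 1 := map_one _
      rw [Polynomial.map_comp, Polynomial.map_comp, Polynomial.map_mul, map_C, map_X,
        Polynomial.map_add, map_X, map_C, e1, e2]
    rw [h4, h5, coeff_map, h2, mul_comp, C_comp, coeff_C_mul] at hQ3
    have h6 : (Fintype.card (ι → Fin (d - 1))).factorial = n.factorial := by rw [hcardI]
    rw [h6, ← map_natCast (S.rd N), hv1, ← map_mul] at hQ3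
    have h7 : S.res ((G.comp (X + C 1)).coeff μ) ≠ 0 := by
      rw [← coeff_map, Polynomial.map_comp, Polynomial.map_add, map_X, map_C, map_one, h3]
      exact taylor_ne _ hP0ne u hu r
    have h8 : S.lam ^ b * v * (S.lam ^ E0 * (G.comp (X + C 1)).coeff μ) =
        S.lam ^ (b + E0) * (v * (G.comp (X + C 1)).coeff μ) := by
      rw [pow_add]; ring
    rw [h8] at hQ3
    refine S.ord_ne_zero ?_ (Nat.lt_succ_self _) hQ3
    rw [map_mul]
    exact mul_ne_zero hv2 h7

end S0

/-- points and exponential sums -/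
theorem points_expSum {p : ℕ} [hp : Fact p.Prime] {K : Type} [Field K] [CharP K p] [IsAlgClosed K]
    {ι : Type} [Fintype ι] [DecidableEq ι] (f : MvPolynomial ι K)
    (a : ℕ) (ha : 1 ≤ a) (hf : ∀ s, MvPolynomial.coeff s f ^ (p ^ a) = MvPolynomial.coeff s f)
    {A : Type} [Field A] (ζ : A) (hζ : IsPrimitiveRoot ζ p) :
    ((p * Nat.card {x : ι → K // (∀ i, x i ^ (p ^ a) = x i) ∧
        ∑ t ∈ Finset.range a, (MvPolynomial.eval x f) ^ (p ^ t) = 0} : ℕ) : A) =
      ((p ^ a : ℕ) : A) ^ (Fintype.card ι) + ∑ j ∈ Finset.Ico 1 p, expSum p f a (ζ ^ j) := by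
  have hp1 := hp.out.one_lt
  have h1 : expSum p f a (1 : A) = ((p ^ a : ℕ) : A) ^ (Fintype.card ι) := by
    rw [expSum_eq p f a ha hf 1 (one_pow p) (fun _ => 1) (fun x _ c _ => (one_pow c).symm),
      Finset.sum_const, Fintype.card_piFinset, Finset.prod_const, Finset.card_univ, card_FQ a ha,
      nsmul_eq_mul, mul_one, Nat.cast_pow (p ^ a)]
  have h2 : ∑ j ∈ Finset.range p, expSum p f a (ζ ^ j) =
      expSum p f a (1 : A) + ∑ j ∈ Finset.Ico 1 p, expSum p f a (ζ ^ j) := by
    rw [Finset.range_eq_Ico, Finset.sum_eq_sum_Ico_succ_bot hp.out.pos, pow_zero]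
  rw [← h1, ← h2]
  unfold expSum
  rw [Finset.sum_comm]
  have h3 : ∀ a0 ∈ Finset.range p, ∑ j ∈ Finset.range p, (ζ ^ j) ^ a0 *
      ((Nat.card {x : ι → K // (∀ i, x i ^ (p ^ a) = x i) ∧
        ∑ t ∈ Finset.range a, (MvPolynomial.eval x f) ^ (p ^ t) = (a0 : K)} : ℕ) : A) =
      if a0 = 0 then ((p * Nat.card {x : ι → K // (∀ i, x i ^ (p ^ a) = x i) ∧
        ∑ t ∈ Finset.range a, (MvPolynomial.eval x f) ^ (p ^ t) = 0} : ℕ) : A) else 0 := by
    intro a0 ha0
    rw [Finset.mem_range] at ha0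
    rw [← Finset.sum_mul]
    split_ifs with h
    · subst h
      simp only [pow_zero, Finset.sum_const, Finset.card_range, nsmul_eq_mul, mul_one, Nat.cast_zero]
      push_cast
      rfl
    · have h4 : ∑ j ∈ Finset.range p, (ζ ^ j) ^ a0 = 0 := by
        have hprim : IsPrimitiveRoot (ζ ^ a0) p := by
          refine hζ.pow_of_coprime a0 ?_
          exact (Nat.coprime_of_lt_prime h ha0 hp.out).symm
        have h5 := hprim.geom_sum_eq_zero hp1
        rw [← h5]
        refine Finset.sum_congr rfl fun j _ => ?_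
        rw [← pow_mul, ← pow_mul, mul_comm]
      rw [h4, zero_mul]
  rw [Finset.sum_congr rfl h3, Finset.sum_ite_eq', if_pos (Finset.mem_range.2 hp.out.pos)]

end Pool.Agent.H856.DV
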